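import Pool.Agent.Helper11.LV.Defs

/-!
# Project LV (MP_a499ba_nt): the size of the pattern family against the errors
-/

set_option autoImplicit false

namespace Pool.Agent.Helper11.LV

open Finset Filter Topology

theorem big {C C' : ℝ} (hC : 0 < C) (hC' : 0 < C') : ∃ Q1 : ℕ, ∀ Q y π : ℕ, Q1 ≤ Q → 64 ≤ y → π ≤ y → 30 * (y : ℝ) ≤ Real.log Q →
    ∀ S c : ℝ, (Q : ℝ) / 8 ≤ c → c / (2 ^ π * (y + 1)) - C' * 16 ^ y * Real.sqrt Q ≤ S →
    (Q : ℝ) / (16 * (2 ^ y * (y + 1))) ≤ S ∧ ∀ (N : ℕ) (K : ℝ), (N : ℝ) ≤ Real.exp y → 0 ≤ K → K ≤ 4 * Real.exp (8 * Real.sqrt y) →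
      C * 32 ^ y * (N : ℝ) ^ 4 * Real.sqrt Q * (K * (2 * Real.sqrt N)) ^ 2 ≤ S / 800 := by
  set C2 : ℝ := 64 * 800 * 16 * C + 16 * C' + 1 with hC2
  have hC20 : 0 < C2 := by positivity
  obtain ⟨Q1, hQ1⟩ := exists_nat_gt (Real.exp (15 * Real.log C2))
  refine ⟨max Q1 1, fun Q y π hQ hy hπ hyQ S c hc hS => ?_⟩
  have hQ1' : (Q1 : ℝ) ≤ Q := by exact_mod_cast (le_max_left _ _).trans hQ
  have hQpos : (0 : ℝ) < Q := lt_of_lt_of_le (Real.exp_pos _) (hQ1.le.trans hQ1')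
  set q : ℝ := Real.log Q with hq
  have hQe : (Q : ℝ) = Real.exp q := (Real.exp_log hQpos).symm
  have hqC : 15 * Real.log C2 ≤ q := by
    have h1 := Real.log_le_log (Real.exp_pos _) (hQ1.le.trans hQ1')
    rwa [Real.log_exp] at h1
  set E : ℝ := Real.exp y with hE
  have hE0 : 0 < E := Real.exp_pos _
  have hE1 : 1 ≤ E := Real.one_le_exp (Nat.cast_nonneg y)
  have hs : Real.sqrt Q = Real.exp (q / 2) := by rw [hQe, ← Real.exp_half]
  have hss : Real.sqrt Q * Real.sqrt Q = Q := Real.mul_self_sqrt hQpos.le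
  have hs0 : 0 < Real.sqrt Q := Real.sqrt_pos.2 hQpos
  -- `C2 * E ^ 13 ≤ √Q`
  have key : C2 * E ^ 13 ≤ Real.sqrt Q := by
    have h1 : E ^ 13 = Real.exp (13 * y) := by
      rw [hE, ← Real.exp_nat_mul]
      norm_num
    rw [hs, h1]
    calc C2 * Real.exp (13 * y) = Real.exp (Real.log C2) * Real.exp (13 * y) := by rw [Real.exp_log hC20]
      _ = Real.exp (Real.log C2 + 13 * y) := (Real.exp_add _ _).symm
      _ ≤ Real.exp (q / 2) := Real.exp_le_exp.2 (by linarith)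
  have he1 : (2.7 : ℝ) < Real.exp 1 := by linarith [Real.exp_one_gt_d9]
  have hpw : ∀ (b : ℝ) (k : ℕ), 0 ≤ b → b ≤ 2.7 ^ k → b ^ y ≤ E ^ k := by
    intro b k hb h
    have h1 : b ≤ Real.exp 1 ^ k := h.trans (pow_le_pow_left₀ (by norm_num) he1.le k)
    calc b ^ y ≤ (Real.exp 1 ^ k) ^ y := pow_le_pow_left₀ hb h1 y
      _ = (Real.exp 1 ^ y) ^ k := by rw [← pow_mul, ← pow_mul, mul_comm]
      _ = E ^ k := by
          congr 1
          rw [hE, ← Real.exp_nat_mul, mul_one]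
  have h2y : (2 : ℝ) ^ y ≤ E := by simpa using hpw 2 1 (by norm_num) (by norm_num)
  have h16 : (16 : ℝ) ^ y ≤ E ^ 3 := hpw 16 3 (by norm_num) (by norm_num)
  have h32 : (32 : ℝ) ^ y ≤ E ^ 4 := hpw 32 4 (by norm_num) (by norm_num)
  have hy1 : (y : ℝ) + 1 ≤ E := Real.add_one_le_exp _
  have h2pi : (2 : ℝ) ^ π ≤ 2 ^ y := pow_le_pow_right₀ (by norm_num) hπ
  have hden0 : (0 : ℝ) < 2 ^ y * (y + 1) := by positivity
  have hden : (2 : ℝ) ^ y * (y + 1) ≤ E ^ 2 := by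
    rw [sq]
    exact mul_le_mul h2y hy1 (by positivity) hE0.le
  have hdenpi : (2 : ℝ) ^ π * (y + 1) ≤ 2 ^ y * (y + 1) := mul_le_mul_of_nonneg_right h2pi (by positivity)
  have hdenpi0 : (0 : ℝ) < 2 ^ π * (y + 1) := by positivity
  have hE13 : E ^ 5 ≤ E ^ 13 := pow_le_pow_right₀ hE1 (by norm_num)
  -- the size
  have hlow : (Q : ℝ) / (16 * (2 ^ y * (y + 1))) ≤ S := by
    have e1 : (Q : ℝ) / (8 * (2 ^ y * (y + 1))) ≤ c / (2 ^ π * (y + 1)) := by
      rw [← div_div]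
      exact div_le_div₀ (le_trans (by positivity) hc) hc hdenpi0 hdenpi
    have e2 : C' * 16 ^ y * Real.sqrt Q ≤ (Q : ℝ) / (16 * (2 ^ y * (y + 1))) := by
      rw [le_div_iff₀ (by positivity)]
      calc C' * 16 ^ y * Real.sqrt Q * (16 * (2 ^ y * (y + 1))) ≤ C' * E ^ 3 * Real.sqrt Q * (16 * E ^ 2) := by gcongr
        _ = 16 * C' * E ^ 5 * Real.sqrt Q := by ring
        _ ≤ C2 * E ^ 13 * Real.sqrt Q := by
            refine mul_le_mul_of_nonneg_right ?_ hs0.le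
            refine mul_le_mul ?_ hE13 (by positivity) hC20.le
            rw [hC2]
            nlinarith
        _ ≤ Real.sqrt Q * Real.sqrt Q := mul_le_mul_of_nonneg_right key hs0.le
        _ = Q := hss
    have e3 : (Q : ℝ) / (8 * (2 ^ y * (y + 1))) = 2 * ((Q : ℝ) / (16 * (2 ^ y * (y + 1)))) := by
      field_simp
      ring
    linarith
  refine ⟨hlow, fun N K hN hK0 hK => ?_⟩
  have hsy : 8 * Real.sqrt y ≤ y := by
    have h1 : (8 : ℝ) ≤ Real.sqrt y := by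
      apply Real.le_sqrt_of_sq_le
      have : (64 : ℝ) ≤ y := by exact_mod_cast hy
      linarith
    have h2 : Real.sqrt y * Real.sqrt y = y := Real.mul_self_sqrt (Nat.cast_nonneg y)
    nlinarith
  have hK2 : K ≤ 4 * E := hK.trans (mul_le_mul_of_nonneg_left (Real.exp_le_exp.2 hsy) (by norm_num))
  have hN0 : (0 : ℝ) ≤ N := Nat.cast_nonneg N
  have e1 : (K * (2 * Real.sqrt N)) ^ 2 ≤ 64 * E ^ 3 := by
    have h1 : (K * (2 * Real.sqrt N)) ^ 2 = 4 * K ^ 2 * (Real.sqrt N * Real.sqrt N) := by ring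
    rw [h1, Real.mul_self_sqrt hN0]
    calc 4 * K ^ 2 * (N : ℝ) ≤ 4 * (4 * E) ^ 2 * E := by gcongr
      _ = 64 * E ^ 3 := by ring
  have e2 : (N : ℝ) ^ 4 ≤ E ^ 4 := pow_le_pow_left₀ hN0 hN 4
  calc C * 32 ^ y * (N : ℝ) ^ 4 * Real.sqrt Q * (K * (2 * Real.sqrt N)) ^ 2
      ≤ C * E ^ 4 * E ^ 4 * Real.sqrt Q * (64 * E ^ 3) := by gcongr
    _ = 64 * C * E ^ 11 * Real.sqrt Q := by ring
    _ ≤ (Q : ℝ) / (16 * (2 ^ y * (y + 1))) / 800 := by
        rw [div_div, le_div_iff₀ (by positivity)]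
        calc 64 * C * E ^ 11 * Real.sqrt Q * (16 * (2 ^ y * (y + 1)) * 800) ≤ 64 * C * E ^ 11 * Real.sqrt Q * (16 * E ^ 2 * 800) := by gcongr
          _ = 64 * 800 * 16 * C * E ^ 13 * Real.sqrt Q := by ring
          _ ≤ C2 * E ^ 13 * Real.sqrt Q := by
              refine mul_le_mul_of_nonneg_right (mul_le_mul_of_nonneg_right ?_ (by positivity)) hs0.le
              rw [hC2]
              nlinarith
          _ ≤ Real.sqrt Q * Real.sqrt Q := mul_le_mul_of_nonneg_right key hs0.le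
          _ = Q := hss
    _ ≤ S / 800 := by linarith

end Pool.Agent.Helper11.LV
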