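import Pool.Agent.Helper11.LV.QDefs
import Pool.Agent.Helper28.LV.D4

/-!
# Project LV (MP_a499ba_nt): Chebyshev's inequality on the pattern family
-/

set_option autoImplicit false

namespace Pool.Agent.Helper11.LV

open Finset Filter Topology Pool.Agent.Helper11.Q3
open Pool.Agent.Helper28.LV (pair_sum)

/-- `∑_{n ≤ N} n^(-1/2) ≤ 2 √N` -/
theorem sum_rsqrt (N : ℕ) : ∑ n ∈ Icc 1 N, (n : ℝ) ^ (-(1 / 2 : ℝ)) ≤ 2 * Real.sqrt N := by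
  induction N with
  | zero => simp
  | succ N ih =>
    rw [Finset.sum_Icc_succ_top (by omega)]
    have h0 : (0 : ℝ) ≤ N := Nat.cast_nonneg N
    have h1 : (0 : ℝ) < (N : ℝ) + 1 := by linarith
    have h2 : (((N + 1 : ℕ) : ℝ)) ^ (-(1 / 2 : ℝ)) = 1 / Real.sqrt ((N : ℝ) + 1) := by
      push_cast
      rw [Real.rpow_neg h1.le, ← Real.sqrt_eq_rpow, inv_eq_one_div]
    rw [h2]
    push_cast
    have h3 : 1 / Real.sqrt ((N : ℝ) + 1) ≤ 2 * (Real.sqrt ((N : ℝ) + 1) - Real.sqrt N) := by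
      have h4 := Real.sqrt_pos.2 h1
      rw [div_le_iff₀ h4]
      have h5 : Real.sqrt N ≤ Real.sqrt ((N : ℝ) + 1) := Real.sqrt_le_sqrt (by linarith)
      have h6 := Real.mul_self_sqrt h1.le
      have h7 := Real.mul_self_sqrt h0
      have h8 := Real.sqrt_nonneg (N : ℝ)
      nlinarith [sq_nonneg (Real.sqrt ((N : ℝ) + 1) - Real.sqrt N)]
    linarith

/-- the second moment of one sum -/
theorem moment {C : ℝ} (hC : 0 < C) (hD : ∀ (Q y N : ℕ) (T : Finset ℕ) (c : ℕ → ℂ), (∀ m ∈ T, 1 ≤ m ∧ m ≤ N ∧ Rou y m) →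
    ∑ q ∈ Sub Q y, ‖∑ m ∈ T, c m * ja q m‖ ^ 2 ≤
      (Sub Q y).card * ∑ m ∈ T, ∑ n ∈ T, (open Classical in if IsSquare (m * n) then ‖c m‖ * ‖c n‖ else 0) +
      C * 32 ^ y * (N : ℝ) ^ 4 * Real.sqrt Q * (∑ m ∈ T, ‖c m‖) ^ 2)
    {d K : ℝ} (hd : 0 < d) (hd1 : d ≤ 1) (hK : 0 ≤ K) {Q y N A : ℕ} {T : Finset ℕ} {c : ℕ → ℂ} (hA : 1 ≤ A)
    (hT : ∀ m ∈ T, A ≤ m ∧ 1 ≤ m ∧ m ≤ N ∧ Rou y m) (hc : ∀ m ∈ T, ‖c m‖ ≤ K * (m : ℝ) ^ (-(1 / 2 + d))) :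
    ∑ q ∈ Sub Q y, ‖∑ m ∈ T, c m * ja q m‖ ^ 2 ≤
      (Sub Q y).card * (K ^ 2 * ((A : ℝ) ^ (-d) * (1 + 1 / d) ^ 3)) +
        C * 32 ^ y * (N : ℝ) ^ 4 * Real.sqrt Q * (K * (2 * Real.sqrt N)) ^ 2 := by
  classical
  refine (hD Q y N T c fun m hm => ⟨(hT m hm).2.1, (hT m hm).2.2.1, (hT m hm).2.2.2⟩).trans (add_le_add ?_ ?_)
  · refine mul_le_mul_of_nonneg_left ?_ (Nat.cast_nonneg _)
    have h1 := pair_sum hd hd1 hA T fun m hm => (hT m hm).1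
    refine le_trans ?_ (mul_le_mul_of_nonneg_left h1 (sq_nonneg K))
    rw [Finset.mul_sum]
    refine Finset.sum_le_sum fun m hm => ?_
    rw [Finset.mul_sum]
    refine Finset.sum_le_sum fun n hn => ?_
    by_cases h : IsSquare (m * n)
    · rw [if_pos h, if_pos h]
      calc ‖c m‖ * ‖c n‖ ≤ (K * (m : ℝ) ^ (-(1 / 2 + d))) * (K * (n : ℝ) ^ (-(1 / 2 + d))) :=
            mul_le_mul (hc m hm) (hc n hn) (norm_nonneg _) (mul_nonneg hK (by positivity))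
        _ = _ := by ring
    · rw [if_neg h, if_neg h, mul_zero]
  · refine mul_le_mul_of_nonneg_left ?_ (by positivity)
    refine pow_le_pow_left₀ (Finset.sum_nonneg fun _ _ => norm_nonneg _) ?_ 2
    calc ∑ m ∈ T, ‖c m‖ ≤ ∑ m ∈ T, K * (m : ℝ) ^ (-(1 / 2 : ℝ)) := by
          refine Finset.sum_le_sum fun m hm => (hc m hm).trans (mul_le_mul_of_nonneg_left ?_ hK)
          have h1 : (1 : ℝ) ≤ m := by exact_mod_cast (hT m hm).2.1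
          exact Real.rpow_le_rpow_of_exponent_le h1 (by linarith)
      _ = K * ∑ m ∈ T, (m : ℝ) ^ (-(1 / 2 : ℝ)) := by rw [Finset.mul_sum]
      _ ≤ K * ∑ m ∈ Icc 1 N, (m : ℝ) ^ (-(1 / 2 : ℝ)) := by
          refine mul_le_mul_of_nonneg_left ?_ hK
          refine Finset.sum_le_sum_of_subset_of_nonneg (fun m hm => ?_) fun _ _ _ => by positivity
          exact Finset.mem_Icc.2 ⟨(hT m hm).2.1, (hT m hm).2.2.1⟩
      _ ≤ K * (2 * Real.sqrt N) := mul_le_mul_of_nonneg_left (sum_rsqrt N) hK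

open Classical in
/-- Chebyshev -/
theorem cheb (S : Finset ℕ) (Z : ℕ → ℂ) {B : ℝ} (h : ∑ q ∈ S, ‖Z q‖ ^ 2 ≤ B) : ((S.filter fun q => 1 / 2 < ‖Z q‖).card : ℝ) ≤ 4 * B := by
  have h1 : (1 / 4 : ℝ) * (S.filter fun q => 1 / 2 < ‖Z q‖).card ≤ ∑ q ∈ S, ‖Z q‖ ^ 2 := by
    calc (1 / 4 : ℝ) * (S.filter fun q => 1 / 2 < ‖Z q‖).card = ∑ q ∈ S.filter (fun q => 1 / 2 < ‖Z q‖), (1 / 4 : ℝ) := by
          rw [Finset.sum_const, nsmul_eq_mul, mul_comm]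
      _ ≤ ∑ q ∈ S.filter (fun q => 1 / 2 < ‖Z q‖), ‖Z q‖ ^ 2 := by
          refine Finset.sum_le_sum fun q hq => ?_
          have := (Finset.mem_filter.1 hq).2
          nlinarith
      _ ≤ ∑ q ∈ S, ‖Z q‖ ^ 2 := Finset.sum_le_sum_of_subset_of_nonneg (Finset.filter_subset _ _) fun _ _ _ => by positivity
  linarith

end Pool.Agent.Helper11.LV
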