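import Pool.Agent.Helper11.LV.QDefs
import Pool.Agent.Helper12.QT.LapF
import Pool.Agent.Helper95.TF.Gk

/-!
# Project LV (MP_a499ba_nt): the Gaussian mean is continuous
-/

set_option autoImplicit false

namespace Pool.Agent.Helper11.LV

open Real Filter Topology MeasureTheory Set Pool.Agent.QT

private lemma gk_eq58 {d : ℝ} (y : ℝ) :
    gk d y = (d * Real.sqrt (2 * π))⁻¹ * Real.exp (-(1 / (2 * d ^ 2)) * y ^ 2) := by
  unfold gk
  congr 2
  ring

private lemma gk_pos58 {d : ℝ} (hd : 0 < d) (y : ℝ) : 0 < gk d y := by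
  unfold gk
  have : 0 < Real.sqrt (2 * π) := Real.sqrt_pos.2 (by positivity)
  positivity

private lemma gk_cont58 (d : ℝ) : Continuous (gk d) := by
  unfold gk
  fun_prop

private lemma dom58 {F : ℝ → ℝ} (hF : ∀ t, |F t| ≤ Real.exp (t / 2)) {d : ℝ} (hd : 0 < d) (u₀ : ℝ) :
    ∃ B : ℝ → ℝ, Integrable B ∧ ∀ u : ℝ, |u - u₀| < 1 → ∀ t : ℝ, ‖F t * gk d (u - t)‖ ≤ B t := by
  set A := (d * Real.sqrt (2 * π))⁻¹ with hA
  have hs : 0 < Real.sqrt (2 * π) := Real.sqrt_pos.2 (by positivity)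
  have hA0 : 0 < A := by positivity
  refine ⟨fun t => A * Real.exp (1 / (2 * d ^ 2)) * Real.exp (-(1 / (4 * d ^ 2)) * (u₀ - t) ^ 2 + t / 2), ?_, ?_⟩
  · refine Integrable.const_mul ?_ _
    have h1 : (fun t : ℝ => Real.exp (-(1 / (4 * d ^ 2)) * (u₀ - t) ^ 2 + t / 2)) = fun t : ℝ =>
        ‖Complex.exp (((-(1 / (4 * d ^ 2)) : ℝ) : ℂ) * (t : ℂ) ^ 2 + ((1 / (4 * d ^ 2) * (2 * u₀) + 1 / 2 : ℝ) : ℂ) * t +
          ((-(1 / (4 * d ^ 2)) * u₀ ^ 2 : ℝ) : ℂ))‖ := by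
      funext t
      rw [Complex.norm_exp]
      congr 1
      have : (((-(1 / (4 * d ^ 2)) : ℝ) : ℂ) * (t : ℂ) ^ 2 + ((1 / (4 * d ^ 2) * (2 * u₀) + 1 / 2 : ℝ) : ℂ) * t +
          ((-(1 / (4 * d ^ 2)) * u₀ ^ 2 : ℝ) : ℂ)) = ((-(1 / (4 * d ^ 2)) * t ^ 2 +
          (1 / (4 * d ^ 2) * (2 * u₀) + 1 / 2) * t + -(1 / (4 * d ^ 2)) * u₀ ^ 2 : ℝ) : ℂ) := by push_cast; ring
      rw [this, Complex.ofReal_re]
      ring
    rw [h1]
    refine (integrable_cexp_quadratic' ?_ _ _).norm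
    rw [Complex.ofReal_re]
    have : 0 < 1 / (4 * d ^ 2) := by positivity
    linarith
  · intro u hu t
    rw [norm_mul, Real.norm_eq_abs, Real.norm_eq_abs, abs_of_pos (gk_pos58 hd _)]
    have h2 : gk d (u - t) ≤ A * Real.exp (1 / (2 * d ^ 2)) * Real.exp (-(1 / (4 * d ^ 2)) * (u₀ - t) ^ 2) := by
      rw [gk_eq58, mul_assoc, ← Real.exp_add]
      have h3 : -(1 / (2 * d ^ 2)) * (u - t) ^ 2 ≤ 1 / (2 * d ^ 2) + -(1 / (4 * d ^ 2)) * (u₀ - t) ^ 2 := by
        have h4 : (u₀ - t) ^ 2 ≤ 2 * (u - t) ^ 2 + 2 := by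
          have h5 : (u - u₀) ^ 2 ≤ 1 := by
            have := abs_lt.1 hu
            nlinarith
          nlinarith [sq_nonneg ((u - t) + (u - u₀))]
        have h6 : 0 < 1 / (4 * d ^ 2) := by positivity
        have h7 : 1 / (2 * d ^ 2) = 2 * (1 / (4 * d ^ 2)) := by field_simp; norm_num
        rw [h7]
        nlinarith
      gcongr
    calc |F t| * gk d (u - t) ≤ Real.exp (t / 2) * (A * Real.exp (1 / (2 * d ^ 2)) *
          Real.exp (-(1 / (4 * d ^ 2)) * (u₀ - t) ^ 2)) := by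
          gcongr
          · exact (gk_pos58 hd _).le
          · exact hF t
      _ = _ := by simp only [Real.exp_add]; ring

private lemma meas58 {F : ℝ → ℝ} (hm : Measurable F) (d u : ℝ) : Measurable (fun t => F t * gk d (u - t)) :=
  hm.mul ((gk_cont58 d).measurable.comp (measurable_const.sub measurable_id))

theorem cont_bb {F : ℝ → ℝ} (hm : Measurable F) (hF : ∀ t, |F t| ≤ Real.exp (t / 2)) {d : ℝ} (hd : 0 < d) :
    Continuous (bb d F) := by
  rw [continuous_iff_continuousAt]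
  intro u₀
  unfold bb
  obtain ⟨B, hB, h⟩ := dom58 hF hd u₀
  refine continuousAt_of_dominated (bound := B) ?_ ?_ hB ?_
  · exact Eventually.of_forall fun u => (meas58 hm d u).aestronglyMeasurable
  · have h1 : ∀ᶠ u : ℝ in 𝓝 u₀, |u - u₀| < 1 := by
      have := Metric.ball_mem_nhds u₀ one_pos
      filter_upwards [this] with u hu
      simpa [Real.dist_eq] using hu
    filter_upwards [h1] with u hu
    exact Eventually.of_forall (h u hu)
  · refine Eventually.of_forall fun t => ?_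
    exact continuousAt_const.mul (((gk_cont58 d).comp (continuous_id.sub continuous_const)).continuousAt)

theorem abs_FF {a : ℕ → ℝ} (ha : ∀ n, |a n| ≤ 1) (t : ℝ) : |FF a t| ≤ Real.exp (t / 2) := by
  unfold FF
  split_ifs with h
  · have h1 : |mS a (Real.exp t)| ≤ Real.exp t := by
      unfold mS
      refine (Finset.abs_sum_le_sum_abs _ _).trans ?_
      calc ∑ n ∈ Finset.Icc 1 ⌊Real.exp t⌋₊, |a n| ≤ ∑ _n ∈ Finset.Icc 1 ⌊Real.exp t⌋₊, (1 : ℝ) := Finset.sum_le_sum fun n _ => ha n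
        _ = (⌊Real.exp t⌋₊ : ℝ) := by simp
        _ ≤ Real.exp t := Nat.floor_le (Real.exp_pos t).le
    rw [abs_mul, abs_of_pos (Real.exp_pos _)]
    calc Real.exp (-(t / 2)) * |mS a (Real.exp t)| ≤ Real.exp (-(t / 2)) * Real.exp t := mul_le_mul_of_nonneg_left h1 (Real.exp_pos _).le
      _ = Real.exp (t / 2) := by
          rw [← Real.exp_add]
          congr 1
          ring
  · rw [abs_zero]
    exact (Real.exp_pos _).le

theorem cont_b {a : ℕ → ℝ} (ha : ∀ n, |a n| ≤ 1) : Continuous (bb 1 (FF a)) := cont_bb (measurable_FF a) (abs_FF ha) one_pos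

theorem abs_b {a : ℕ → ℝ} (ha : ∀ n, |a n| ≤ 1) (u : ℝ) : |bb 1 (FF a) u| ≤ 2 * Real.exp (u / 2) := by
  have := Pool.Agent.DR.bb_le (F := FF a) (A := 1) (fun t => by rw [one_mul]; exact abs_FF ha t) u
  rwa [one_mul] at this

end Pool.Agent.Helper11.LV
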