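import Mathlib

/-!
# Project LV (MP_a499ba_nt): large values in the families. Definitions
-/

set_option autoImplicit false

namespace Pool.Agent.Helper11.LV

open Finset

/-- all prime factors are at most `y` -/
def Smo (y n : ℕ) : Prop := ∀ p : ℕ, p.Prime → p ∣ n → p ≤ y

/-- all prime factors are larger than `y` -/
def Rou (y n : ℕ) : Prop := ∀ p : ℕ, p.Prime → p ∣ n → y < p

open Classical in
/-- the `y`-smooth `k ≤ N` -/
noncomputable def sS (y N : ℕ) : Finset ℕ := (Finset.Icc 1 N).filter (Smo y)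

open Classical in
/-- the `y`-rough `m`, `M < m ≤ N` -/
noncomputable def rS (y M N : ℕ) : Finset ℕ := (Finset.Icc (M + 1) N).filter (Rou y)

theorem mem_sS {y N n : ℕ} : n ∈ sS y N ↔ 1 ≤ n ∧ n ≤ N ∧ Smo y n := by
  classical
  simp [sS, and_assoc]

theorem mem_rS {y M N n : ℕ} : n ∈ rS y M N ↔ M < n ∧ n ≤ N ∧ Rou y n := by
  classical
  simp [rS, and_assoc, Nat.succ_le_iff]

/-- the primes up to `y` -/
def Pr (y : ℕ) : Finset ℕ := (Finset.Icc 1 y).filter Nat.Prime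

theorem mem_Pr {y p : ℕ} : p ∈ Pr y ↔ p.Prime ∧ p ≤ y := by
  simp only [Pr, Finset.mem_filter, Finset.mem_Icc]
  exact ⟨fun h => ⟨h.2, h.1.2⟩, fun h => ⟨⟨h.1.one_lt.le, h.2⟩, h.1⟩⟩

/-- multiplicative, bounded by one -/
structure MB (f : ℕ → ℂ) : Prop where
  one : f 1 = 1
  mul : ∀ m n : ℕ, m.Coprime n → f (m * n) = f m * f n
  le : ∀ n, ‖f n‖ ≤ 1

/-- completely multiplicative, bounded by one -/
structure CMB (χ : ℕ → ℂ) : Prop where
  one : χ 1 = 1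
  mul : ∀ m n : ℕ, χ (m * n) = χ m * χ n
  le : ∀ n, ‖χ n‖ ≤ 1

/-- `μ χ` -/
noncomputable def muf (χ : ℕ → ℂ) (n : ℕ) : ℂ := ((ArithmeticFunction.moebius n : ℤ) : ℂ) * χ n

/-- `λ χ` -/
noncomputable def laf (χ : ℕ → ℂ) (n : ℕ) : ℂ := ((-1 : ℂ) ^ ArithmeticFunction.cardFactors n) * χ n

/-- the Euler products over the primes up to `y` -/
noncomputable def FM (χ : ℕ → ℂ) (s : ℂ) (y : ℕ) : ℂ := ∏ p ∈ Pr y, (1 - χ p * (p : ℂ) ^ (-s))

noncomputable def FL (χ : ℕ → ℂ) (s : ℂ) (y : ℕ) : ℂ := ∏ p ∈ Pr y, (1 + χ p * (p : ℂ) ^ (-s))⁻¹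

end Pool.Agent.Helper11.LV
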