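import Pool.Agent.Helper11.LV.Nice
import Pool.Agent.Helper71.LV.C1

/-!
# Project LV (MP_a499ba_nt): large values for many real characters
-/

set_option autoImplicit false

namespace Pool.Agent.Helper11.LV

open Finset Filter Topology MeasureTheory Pool.Agent.QT Pool.Agent.Helper11.Q3 Pool.Agent.Helper11.DR Pool.Agent.Q3psi
open Pool.Agent.Helper71.LV (landau)

/-- a one-sided bound for the Gaussian means at all points bounds the functional off the axis -/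
theorem not_bdd {a : ℕ → ℝ} (ha : ∀ n, |a n| ≤ 1) {d L C σ : ℝ} {y : ℕ} (hd : 0 < d) (hd1 : d ≤ 1 / 8) (hL : 0 ≤ L) (hσ : σ = 1 ∨ σ = -1)
    (hC : 0 ≤ C) (hn : Nice1 d y L a) (hlt : 2 * (C + 2) / d + 28 < Fs d y / 4) (h : ∀ u : ℝ, σ * bb 1 (FF a) u ≤ C + 2) : False := by
  obtain ⟨h1, h2⟩ := hn
  have h3 := landau (b := bb 1 (FF a)) (cont_b ha) (abs_b ha) (σ := σ) (C := C + 2) (d := d) (τ := Real.pi / Real.log y) (L := L) hσ (by linarith) h hd
    (by linarith) hL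
  have h4 : ‖TT a L ((d : ℂ) + ((Real.pi / Real.log y : ℝ) : ℂ) * Complex.I)‖ ≤ 2 * (C + 2) / d + 16 + ‖TT a L (d : ℂ)‖ := h3
  linarith

/-- nice characters oscillate -/
theorem osc_of_nice {d : ℝ} (hd : 0 < d) (hd1 : d ≤ 1 / 8) : ∃ q0 : ℕ, ∀ (q y : ℕ) (L C : ℝ), q0 ≤ q → Odd q → Squarefree q → 1 < q → 0 ≤ L → 0 ≤ C →
    Nice d y L q → 2 * (C + 2) / d + 28 < Fs d y / 4 → Osc (chi 0 q) C := by
  obtain ⟨q1, hM⟩ := recG_M
  obtain ⟨q2, hL'⟩ := recG_L
  refine ⟨max q1 q2, fun q y L C hq hodd hsf hq1 hL hC hn hlt => ?_⟩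
  have hcd : cd 0 * q = q := by simp [cd]
  obtain ⟨hval, hne, hdat⟩ := chi_spec (j := 0) hodd hsf (by rw [hcd]; exact hq1)
  by_contra hb
  rcases bad_char hdat.prim hdat.sq hdat.ne rfl hval hb with ⟨N, h0, χ, hN, h⟩ | ⟨N, h0, χ, hN, h⟩ | ⟨N, h0, χ, hN, h⟩ | ⟨N, h0, χ, hN, h⟩
  · exact not_bdd (abs_ajq q) hd hd1 hL (Or.inl rfl) hC hn.1 hlt (hM N (by rw [hN, hcd]; exact (le_max_left _ _).trans hq) χ _ 1 C hC h)
  · exact not_bdd (abs_ajq q) hd hd1 hL (Or.inr rfl) hC hn.1 hlt (hM N (by rw [hN, hcd]; exact (le_max_left _ _).trans hq) χ _ (-1) C hC h)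
  · exact not_bdd (abs_ljq q) hd hd1 hL (Or.inl rfl) hC hn.2 hlt (hL' N (by rw [hN, hcd]; exact (le_max_right _ _).trans hq) χ _ _ 1 C hC h)
  · exact not_bdd (abs_ljq q) hd hd1 hL (Or.inr rfl) hC hn.2 hlt (hL' N (by rw [hN, hcd]; exact (le_max_right _ _).trans hq) χ _ _ (-1) C hC h)

/-- the choice of `y` for the conductors up to `X` -/
theorem choice {ε : ℝ} (hε : 0 < ε) (hε1 : ε < 1 / 2) (y1 : ℕ) (q0 : ℕ) : ∃ X0 : ℕ, ∀ X : ℕ, X0 ≤ X → ∃ y : ℕ, y1 ≤ y ∧ 30 * (y : ℝ) ≤ Real.log X ∧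
    2 * (Real.exp (Real.log X ^ (1 / 2 - ε)) + 2) / (ε / 8) + 28 < Fs (ε / 8) y / 4 ∧
    (X : ℝ) ^ (1 - ε) + q0 + 2 ≤ (X : ℝ) / (16 * (2 ^ y * (y + 1))) / 2 := by
  have hlog : Tendsto (fun X : ℕ => Real.log (X : ℝ)) atTop atTop := Real.tendsto_log_atTop.comp tendsto_natCast_atTop_atTop
  set b : ℝ := 1 / 2 - 3 * ε / 4 with hb
  have hb0 : 0 < b := by rw [hb]; linarith
  set K : ℝ := Real.log (4 * (48 / ε + 28)) + 9 with hK
  -- the conditions on `ℓ`
  have t1 : ∀ᶠ l : ℝ in atTop, (y1 : ℝ) ≤ l ^ (1 - ε) := (tendsto_rpow_atTop (by linarith : 0 < 1 - ε)).eventually_ge_atTop _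
  have t2 : ∀ᶠ l : ℝ in atTop, max 60 (8 / ε) ≤ l ^ ε := (tendsto_rpow_atTop hε).eventually_ge_atTop _
  have t3 : ∀ᶠ l : ℝ in atTop, 2 ≤ l ^ (ε / 4) := (tendsto_rpow_atTop (by linarith : 0 < ε / 4)).eventually_ge_atTop _
  have t4 : ∀ᶠ l : ℝ in atTop, 4 * K ≤ l ^ b := (tendsto_rpow_atTop hb0).eventually_ge_atTop _
  have t5 : ∀ᶠ l : ℝ in atTop, Real.log l ≤ 1 / 32 * l ^ b := by
    have h := (isLittleO_log_rpow_atTop hb0).def (by norm_num : (0 : ℝ) < 1 / 32)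
    filter_upwards [h, eventually_ge_atTop 1] with l h1 h2
    rw [Real.norm_of_nonneg (Real.log_nonneg h2), Real.norm_of_nonneg (by positivity)] at h1
    exact h1
  have t6 : ∀ᶠ l : ℝ in atTop, max 1 (2 * Real.log 64 / ε) ≤ l := eventually_ge_atTop _
  have t7 : ∀ᶠ X : ℕ in atTop, (q0 : ℝ) + 2 ≤ (X : ℝ) ^ (1 - ε) :=
    ((tendsto_rpow_atTop (by linarith : 0 < 1 - ε)).comp tendsto_natCast_atTop_atTop).eventually_ge_atTop _
  have hall := ((hlog.eventually t1).and (hlog.eventually t2)).and (((hlog.eventually t3).and (hlog.eventually t4)).and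
    (((hlog.eventually t5).and (hlog.eventually t6)).and (t7.and (eventually_ge_atTop 1))))
  obtain ⟨X0, h0⟩ := Filter.eventually_atTop.1 hall
  refine ⟨X0, fun X hX => ?_⟩
  obtain ⟨⟨u1, u2⟩, ⟨u3, u4⟩, ⟨u5, u6⟩, u7, u8⟩ := h0 X hX
  set l : ℝ := Real.log X with hl
  have hX0 : (0 : ℝ) < X := by exact_mod_cast (by omega : 0 < X)
  have hl1 : 1 ≤ l := (le_max_left _ _).trans u6
  have hl0 : 0 < l := by linarith
  have hl64 : 2 * Real.log 64 / ε ≤ l := (le_max_right _ _).trans u6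
  have h60 : 60 ≤ l ^ ε := (le_max_left _ _).trans u2
  have h8 : 8 / ε ≤ l ^ ε := (le_max_right _ _).trans u2
  have hg1 : 1 ≤ l ^ (1 - ε) := Real.one_le_rpow hl1 (by linarith)
  have hgl : l ^ (1 - ε) * l ^ ε = l := by
    rw [← Real.rpow_add hl0]
    simp
  have hyceil : l ^ (1 - ε) ≤ (⌈l ^ (1 - ε)⌉₊ : ℝ) := Nat.le_ceil _
  have hyceil2 : (⌈l ^ (1 - ε)⌉₊ : ℝ) ≤ 2 * l ^ (1 - ε) := by
    have := (Nat.ceil_lt_add_one (by positivity : 0 ≤ l ^ (1 - ε))).le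
    linarith
  refine ⟨⌈l ^ (1 - ε)⌉₊, ?_, ?_, ?_, ?_⟩
  · exact_mod_cast u1.trans hyceil
  · calc 30 * ((⌈l ^ (1 - ε)⌉₊ : ℕ) : ℝ) ≤ 30 * (2 * l ^ (1 - ε)) := by gcongr
      _ = l ^ (1 - ε) * 60 := by ring
      _ ≤ l ^ (1 - ε) * l ^ ε := mul_le_mul_of_nonneg_left h60 (by positivity)
      _ = l := hgl
  · set y : ℕ := ⌈l ^ (1 - ε)⌉₊ with hy
    have hy0 : (0 : ℝ) < y := by linarith
    -- the exponent
    have e1 : l ^ b ≤ (y : ℝ) ^ (1 / 2 - 2 * (ε / 8)) := by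
      calc l ^ b ≤ l ^ ((1 - ε) * (1 / 2 - 2 * (ε / 8))) := by
            refine Real.rpow_le_rpow_of_exponent_le hl1 ?_
            rw [hb]
            nlinarith [sq_nonneg ε]
        _ = (l ^ (1 - ε)) ^ (1 / 2 - 2 * (ε / 8)) := Real.rpow_mul hl0.le _ _
        _ ≤ _ := Real.rpow_le_rpow (by positivity) hyceil (by linarith)
    have e2 : Real.log y ≤ 1 + Real.log l := by
      calc Real.log y ≤ Real.log (2 * l ^ (1 - ε)) := Real.log_le_log hy0 hyceil2
        _ = Real.log 2 + (1 - ε) * Real.log l := by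
            rw [Real.log_mul (by norm_num) (by positivity), Real.log_rpow hl0]
        _ ≤ 1 + Real.log l := by
            have h1 := Real.log_two_lt_d9
            have h2 := Real.log_nonneg hl1
            nlinarith
    have e3 : l ^ (1 / 2 - ε) * l ^ (ε / 4) = l ^ b := by
      rw [← Real.rpow_add hl0]
      congr 1
      rw [hb]
      ring
    have e4 : 2 * l ^ (1 / 2 - ε) ≤ l ^ b := by
      rw [← e3]
      have : (0 : ℝ) ≤ l ^ (1 / 2 - ε) := by positivity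
      nlinarith
    set A : ℝ := l ^ (1 / 2 - ε) with hA
    have hA0 : 0 ≤ A := by positivity
    have hexpA : 1 ≤ Real.exp A := Real.one_le_exp hA0
    have e5 : 2 * (Real.exp A + 2) / (ε / 8) + 28 ≤ (48 / ε + 28) * Real.exp A := by
      have h1 : 2 * (Real.exp A + 2) / (ε / 8) = 16 / ε * (Real.exp A + 2) := by
        field_simp
        ring
      rw [h1]
      have h2 : 16 / ε * (Real.exp A + 2) ≤ 16 / ε * (3 * Real.exp A) := mul_le_mul_of_nonneg_left (by linarith) (by positivity)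
      have h3 : 16 / ε * (3 * Real.exp A) = 48 / ε * Real.exp A := by ring
      nlinarith
    have hc0 : 0 < 4 * (48 / ε + 28) := by positivity
    have e6 : 4 * (48 / ε + 28) * Real.exp A < Fs (ε / 8) y := by
      unfold Fs
      calc 4 * (48 / ε + 28) * Real.exp A = Real.exp (Real.log (4 * (48 / ε + 28))) * Real.exp A := by rw [Real.exp_log hc0]
        _ = Real.exp (Real.log (4 * (48 / ε + 28)) + A) := (Real.exp_add _ _).symm
        _ < _ := by
            apply Real.exp_lt_exp.2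
            have h1 : Real.log (4 * (48 / ε + 28)) = K - 9 := by rw [hK]; ring
            rw [h1]
            linarith
    linarith
  · set y : ℕ := ⌈l ^ (1 - ε)⌉₊ with hy
    have hXe : (X : ℝ) = Real.exp l := (Real.exp_log hX0).symm
    have e1 : (2 : ℝ) ^ y * (y + 1) ≤ Real.exp (2 * y) := by
      have h1 : (2 : ℝ) ^ y ≤ Real.exp y := by
        have h2 : (2 : ℝ) ≤ Real.exp 1 := by linarith [Real.add_one_le_exp (1 : ℝ)]
        calc (2 : ℝ) ^ y ≤ Real.exp 1 ^ y := pow_le_pow_left₀ (by norm_num) h2 y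
          _ = Real.exp y := by rw [← Real.exp_nat_mul, mul_one]
      have h3 : (y : ℝ) + 1 ≤ Real.exp y := Real.add_one_le_exp _
      calc (2 : ℝ) ^ y * (y + 1) ≤ Real.exp y * Real.exp y := mul_le_mul h1 h3 (by positivity) (Real.exp_pos _).le
        _ = Real.exp (2 * y) := by rw [← Real.exp_add]; congr 1; ring
    have e2 : (X : ℝ) ^ (1 - ε) + q0 + 2 ≤ 2 * (X : ℝ) ^ (1 - ε) := by linarith
    have e3 : (X : ℝ) ^ (1 - ε) = Real.exp ((1 - ε) * l) := by
      rw [hXe, ← Real.exp_mul]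
      congr 1
      ring
    have e4 : Real.log 64 + 2 * y ≤ ε * l := by
      have h1 : 2 * Real.log 64 ≤ ε * l := by
        rw [div_le_iff₀ hε] at hl64
        linarith
      have h2 : 8 * l ^ (1 - ε) ≤ ε * l := by
        rw [div_le_iff₀ hε] at h8
        calc 8 * l ^ (1 - ε) ≤ (l ^ ε * ε) * l ^ (1 - ε) := mul_le_mul_of_nonneg_right h8 (by positivity)
          _ = ε * (l ^ (1 - ε) * l ^ ε) := by ring
          _ = ε * l := by rw [hgl]
      linarith
    rw [div_div, le_div_iff₀ (by positivity)]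
    calc ((X : ℝ) ^ (1 - ε) + q0 + 2) * (16 * (2 ^ y * (y + 1)) * 2) ≤ (2 * (X : ℝ) ^ (1 - ε)) * (16 * Real.exp (2 * y) * 2) := by gcongr
      _ = 64 * Real.exp (2 * y) * Real.exp ((1 - ε) * l) := by rw [e3]; ring
      _ = Real.exp (Real.log 64 + 2 * y + (1 - ε) * l) := by
          rw [Real.exp_add, Real.exp_add, Real.exp_log (by norm_num)]
      _ ≤ Real.exp l := Real.exp_le_exp.2 (by linarith)
      _ = X := hXe.symm

open Classical in
/-- at least `X ^ (1 - ε)` of the primitive real characters of conductor at most `X` -/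
theorem many {ε : ℝ} (hε : 0 < ε) (hε1 : ε < 1 / 2) : ∃ X0 : ℕ, ∀ X : ℕ, X0 ≤ X →
    (X : ℝ) ^ (1 - ε) ≤ ({x ∈ RC X | Osc x.2 (Real.exp (Real.log x.1 ^ (1 / 2 - ε)))}.ncard : ℝ) := by
  have hd : 0 < ε / 8 := by linarith
  have hd1 : ε / 8 ≤ 1 / 8 := by linarith
  obtain ⟨y1, Q1, hnice⟩ := nice_many hd hd1
  obtain ⟨q0, hosc⟩ := osc_of_nice hd hd1
  obtain ⟨X0, hch⟩ := choice hε hε1 y1 q0
  refine ⟨max X0 Q1, fun X hX => ?_⟩
  obtain ⟨y, hy, hyX, hV, hcount⟩ := hch X ((le_max_left _ _).trans hX)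
  obtain ⟨L, hL, hsize, hbad⟩ := hnice X y ((le_max_right _ _).trans hX) hy hyX
  have hc := count (fun N χ => Osc χ (Real.exp (Real.log (N : ℝ) ^ (1 / 2 - ε)))) X
  rw [hc]
  have hcd : cd 0 = 1 := rfl
  -- the good ones
  have hsub : ((Sub X y).filter fun q => Nice (ε / 8) y L q) ⊆
      ((OS (X / cd 0)).filter fun q => 1 < cd 0 * q ∧ Osc (chi 0 q) (Real.exp (Real.log ((cd 0 * q : ℕ) : ℝ) ^ (1 / 2 - ε)))) ∪ Finset.range (q0 + 2) := by
    intro q hq
    obtain ⟨hq1, hq2⟩ := Finset.mem_filter.1 hq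
    rw [Finset.mem_union]
    by_cases hq0 : q < q0 + 2
    · exact Or.inr (Finset.mem_range.2 hq0)
    · left
      have hOS : q ∈ OS X := (Finset.mem_filter.1 hq1).1
      have hOS' := hOS
      unfold OS at hOS'
      rw [Finset.mem_filter, Finset.mem_Icc] at hOS'
      obtain ⟨⟨ha, hb⟩, hodd, hsf⟩ := hOS'
      rw [Finset.mem_filter]
      refine ⟨by rw [hcd, Nat.div_one]; exact hOS, by rw [hcd, one_mul]; omega, ?_⟩
      refine hosc q y L _ (by omega) hodd hsf (by omega) hL (Real.exp_pos _).le hq2 ?_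
      refine lt_of_le_of_lt ?_ hV
      have hqR : (1 : ℝ) ≤ ((cd 0 * q : ℕ) : ℝ) := by
        rw [hcd, one_mul]
        exact_mod_cast ha
      have hqX : ((cd 0 * q : ℕ) : ℝ) ≤ X := by
        rw [hcd, one_mul]
        exact_mod_cast hb
      have h1 : Real.log ((cd 0 * q : ℕ) : ℝ) ^ (1 / 2 - ε) ≤ Real.log X ^ (1 / 2 - ε) :=
        Real.rpow_le_rpow (Real.log_nonneg hqR) (Real.log_le_log (by linarith) hqX) (by linarith)
      have h2 := Real.exp_le_exp.2 h1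
      gcongr
  have hcard := (Finset.card_le_card hsub).trans (Finset.card_union_le _ _)
  rw [Finset.card_range] at hcard
  have hcard' := (Nat.cast_le (α := ℝ)).2 hcard
  push_cast at hcard'
  have hsplit : (((Sub X y).filter fun q => Nice (ε / 8) y L q).card : ℝ) + (((Sub X y).filter fun q => ¬ Nice (ε / 8) y L q).card : ℝ) = (Sub X y).card := by
    exact_mod_cast Finset.card_filter_add_card_filter_not (s := Sub X y) (fun q => Nice (ε / 8) y L q)
  have hsum : (((OS (X / cd 0)).filter fun q => 1 < cd 0 * q ∧ Osc (chi 0 q) (Real.exp (Real.log ((cd 0 * q : ℕ) : ℝ) ^ (1 / 2 - ε)))).card : ℝ) ≤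
      ((∑ j : Fin 4, ((OS (X / cd j)).filter fun q => 1 < cd j * q ∧ Osc (chi j q) (Real.exp (Real.log ((cd j * q : ℕ) : ℝ) ^ (1 / 2 - ε)))).card : ℕ) : ℝ) := by
    exact_mod_cast Finset.single_le_sum (f := fun j : Fin 4 => ((OS (X / cd j)).filter fun q => 1 < cd j * q ∧
      Osc (chi j q) (Real.exp (Real.log ((cd j * q : ℕ) : ℝ) ^ (1 / 2 - ε)))).card) (fun _ _ => Nat.zero_le _) (Finset.mem_univ (0 : Fin 4))
  push_cast at hcard' hsum ⊢
  linarith

end Pool.Agent.Helper11.LV
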