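import Pool.Agent.Helper11.LV.Defs

/-!
# Project LV (MP_a499ba_nt): the parameters
-/

set_option autoImplicit false

namespace Pool.Agent.Helper11.LV

open Finset Filter Topology

/-- the parameters of the decomposition as functions of `y` -/
theorem params {d : ℝ} (hd : 0 < d) (hd1 : d ≤ 1 / 8) (L0 : ℝ) : ∃ y1 : ℕ, ∀ y : ℕ, y1 ≤ y → ∃ (L : ℝ) (M N : ℕ),
    0 ≤ L ∧ L0 ≤ L ∧ 1 ≤ M ∧ 2 * M ≤ N ∧ Real.exp (2 * L) ≤ N ∧ (N : ℝ) ≤ Real.exp y ∧
    2 * Real.sqrt M * 4 * Real.exp (8 * Real.sqrt y) * (((M : ℝ) / Real.exp L) ^ (d / 2) + (2 * (M : ℝ) / N) ^ d) ≤ 1 ∧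
    (4 * Real.exp (8 * Real.sqrt y)) ^ 2 * ((M : ℝ) ^ (-d) * (1 + 1 / d) ^ 3) ≤ 1 / 800 ∧
    (y : ℝ) ^ (-d) * (1 + 1 / d) ^ 3 ≤ 1 / 800 := by
  set P : ℝ := (1 + 1 / d) ^ 3 with hP
  have hP0 : 0 < P := by positivity
  -- the size of `r = √y`
  obtain ⟨r1, hr1⟩ := exists_nat_gt (max (max (201 / d ^ 2) (|L0| + 1)) (max (Real.log (16 * 800 * P)) 1))
  obtain ⟨y2, hy2⟩ : ∃ y2 : ℕ, ∀ y : ℕ, y2 ≤ y → (y : ℝ) ^ (-d) * P ≤ 1 / 800 := by
    have h1 : Tendsto (fun y : ℕ => ((y : ℝ)) ^ (-d) * P) atTop (𝓝 (0 * P)) :=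
      ((tendsto_rpow_neg_atTop hd).comp tendsto_natCast_atTop_atTop).mul_const P
    rw [zero_mul] at h1
    have h2 := h1.eventually (gt_mem_nhds (by norm_num : (0 : ℝ) < 1 / 800))
    obtain ⟨y2, h3⟩ := Filter.eventually_atTop.1 h2
    exact ⟨y2, fun y hy => (h3 y hy).le⟩
  refine ⟨max (r1 ^ 2) y2, fun y hy => ?_⟩
  have hyr : r1 ^ 2 ≤ y := (le_max_left _ _).trans hy
  set r : ℝ := Real.sqrt y with hr
  have hrr : (r1 : ℝ) ≤ r := by
    rw [hr]
    apply Real.le_sqrt_of_sq_le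
    exact_mod_cast hyr
  have hr2 : r ^ 2 = y := Real.sq_sqrt (Nat.cast_nonneg y)
  have hra : 201 / d ^ 2 < r := lt_of_lt_of_le (lt_of_le_of_lt ((le_max_left _ _).trans (le_max_left _ _)) hr1) hrr
  have hrb : |L0| + 1 < r := lt_of_lt_of_le (lt_of_le_of_lt ((le_max_right _ _).trans (le_max_left _ _)) hr1) hrr
  have hrc : Real.log (16 * 800 * P) < r := lt_of_lt_of_le (lt_of_le_of_lt ((le_max_left _ _).trans (le_max_right _ _)) hr1) hrr
  have hrd : 1 < r := lt_of_lt_of_le (lt_of_le_of_lt ((le_max_right _ _).trans (le_max_right _ _)) hr1) hrr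
  -- `x = r / d`
  set x : ℝ := r / d with hx
  have hxr : r = x * d := by rw [hx]; field_simp
  have hx8 : 8 * r ≤ x := by
    rw [hx, le_div_iff₀ hd]
    nlinarith
  have hx1 : 8 ≤ x := by linarith
  have hxd : x / d = r / d ^ 2 := by rw [hx]; field_simp
  have hxd8 : 8 * x ≤ x / d := by
    rw [le_div_iff₀ hd]
    nlinarith
  have hlog2 : Real.log 2 < 1 := by linarith [Real.log_two_lt_d9]
  have hexp1 : (2 : ℝ) ≤ Real.exp 1 := by linarith [Real.add_one_le_exp (1 : ℝ)]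
  have hceil : ∀ t : ℝ, 0 ≤ t → (⌈Real.exp t⌉₊ : ℝ) ≤ Real.exp (t + 1) := by
    intro t ht
    have h1 := (Nat.ceil_lt_add_one (Real.exp_pos t).le).le
    have h2 : 1 ≤ Real.exp t := Real.one_le_exp ht
    rw [Real.exp_add]
    nlinarith [Real.exp_pos t]
  set M : ℕ := ⌈Real.exp (20 * x)⌉₊ with hM
  set L : ℝ := 100 * (x / d) with hL
  set N : ℕ := ⌈Real.exp (2 * L)⌉₊ with hN
  have hMlo : Real.exp (20 * x) ≤ M := Nat.le_ceil _
  have hMhi : (M : ℝ) ≤ Real.exp (20 * x + 1) := hceil _ (by linarith)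
  have hNlo : Real.exp (2 * L) ≤ N := Nat.le_ceil _
  have hL0' : 0 ≤ L := by rw [hL]; positivity
  have hNhi : (N : ℝ) ≤ Real.exp (2 * L + 1) := hceil _ (by linarith)
  have hM0 : (0 : ℝ) < M := lt_of_lt_of_le (Real.exp_pos _) hMlo
  have hN0 : (0 : ℝ) < N := lt_of_lt_of_le (Real.exp_pos _) hNlo
  have hLx : 800 * x ≤ L := by rw [hL]; linarith
  refine ⟨L, M, N, hL0', ?_, ?_, ?_, hNlo, ?_, ?_, ?_, hy2 y ((le_max_right _ _).trans hy)⟩
  · have h1 := le_abs_self L0
    linarith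
  · have h1 : (1 : ℝ) ≤ M := (Real.one_le_exp (by linarith)).trans hMlo
    exact_mod_cast h1
  · have h1 : (2 : ℝ) * M ≤ N := by
      calc (2 : ℝ) * M ≤ Real.exp 1 * Real.exp (20 * x + 1) := mul_le_mul hexp1 hMhi hM0.le (Real.exp_pos _).le
        _ = Real.exp (1 + (20 * x + 1)) := (Real.exp_add _ _).symm
        _ ≤ Real.exp (2 * L) := Real.exp_le_exp.2 (by linarith)
        _ ≤ N := hNlo
    exact_mod_cast h1
  · refine hNhi.trans (Real.exp_le_exp.2 ?_)
    rw [← hr2]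
    have h1 : 201 ≤ r * d ^ 2 := by
      rw [div_lt_iff₀ (by positivity)] at hra
      linarith
    have h2 : 2 * L + 1 = 200 * (r / d ^ 2) + 1 := by rw [hL, hxd]; ring
    rw [h2]
    have h3 : r / d ^ 2 * 201 ≤ r ^ 2 := by
      rw [div_mul_eq_mul_div, div_le_iff₀ (by positivity)]
      nlinarith
    have h4 : 1 ≤ r / d ^ 2 := by
      rw [le_div_iff₀ (by positivity)]
      nlinarith
    linarith
  · -- the error
    have e1 : Real.sqrt M ≤ Real.exp (10 * x + 1) := by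
      rw [Real.sqrt_le_left (Real.exp_pos _).le, ← Real.exp_nat_mul]
      refine hMhi.trans (Real.exp_le_exp.2 ?_)
      push_cast
      linarith
    have e2 : ((M : ℝ) / Real.exp L) ^ (d / 2) ≤ Real.exp (-(40 * x)) := by
      have h1 : (M : ℝ) / Real.exp L ≤ Real.exp (20 * x + 1 - L) := by
        rw [Real.exp_sub]
        exact div_le_div_of_nonneg_right hMhi (Real.exp_pos _).le
      refine (Real.rpow_le_rpow (by positivity) h1 (by linarith)).trans ?_
      rw [← Real.exp_mul]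
      apply Real.exp_le_exp.2
      have h2 : L * d = 100 * x := by rw [hL]; field_simp
      nlinarith
    have e3 : (2 * (M : ℝ) / N) ^ d ≤ Real.exp (-(40 * x)) := by
      have h1 : 2 * (M : ℝ) / N ≤ Real.exp (20 * x + 2 - 2 * L) := by
        rw [Real.exp_sub]
        refine div_le_div₀ (Real.exp_pos _).le ?_ (Real.exp_pos _) hNlo
        calc 2 * (M : ℝ) ≤ Real.exp 1 * Real.exp (20 * x + 1) := mul_le_mul hexp1 hMhi hM0.le (Real.exp_pos _).le
          _ = Real.exp (20 * x + 2) := by rw [← Real.exp_add]; congr 1; ring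
      refine (Real.rpow_le_rpow (by positivity) h1 hd.le).trans ?_
      rw [← Real.exp_mul]
      apply Real.exp_le_exp.2
      have h2 : L * d = 100 * x := by rw [hL]; field_simp
      nlinarith
    have e4 : Real.exp (8 * r) ≤ Real.exp x := Real.exp_le_exp.2 hx8
    have e5 : (8 : ℝ) ≤ Real.exp 3 := by
      have : (8 : ℝ) = 2 ^ 3 := by norm_num
      rw [this, show Real.exp 3 = Real.exp 1 ^ 3 by rw [← Real.exp_nat_mul]; norm_num]
      exact pow_le_pow_left₀ (by norm_num) hexp1 3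
    calc 2 * Real.sqrt M * 4 * Real.exp (8 * r) * (((M : ℝ) / Real.exp L) ^ (d / 2) + (2 * (M : ℝ) / N) ^ d)
        ≤ 2 * Real.exp (10 * x + 1) * 4 * Real.exp x * (Real.exp (-(40 * x)) + Real.exp (-(40 * x))) := by
          gcongr
      _ = 16 * (Real.exp (10 * x + 1) * Real.exp x * Real.exp (-(40 * x))) := by ring
      _ = 16 * Real.exp (10 * x + 1 + x + -(40 * x)) := by rw [← Real.exp_add, ← Real.exp_add]
      _ ≤ Real.exp 3 * Real.exp 3 * Real.exp (10 * x + 1 + x + -(40 * x)) := by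
          refine mul_le_mul_of_nonneg_right ?_ (Real.exp_pos _).le
          nlinarith
      _ = Real.exp (3 + 3 + (10 * x + 1 + x + -(40 * x))) := by rw [← Real.exp_add, ← Real.exp_add]
      _ ≤ Real.exp 0 := Real.exp_le_exp.2 (by linarith)
      _ = 1 := Real.exp_zero
  · have e1 : (M : ℝ) ^ (-d) ≤ Real.exp (-(20 * r)) := by
      rw [Real.rpow_neg hM0.le, Real.exp_neg]
      apply inv_anti₀ (Real.exp_pos _)
      calc Real.exp (20 * r) = Real.exp (20 * x) ^ d := by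
            rw [← Real.exp_mul]
            congr 1
            rw [hxr]
            ring
        _ ≤ (M : ℝ) ^ d := Real.rpow_le_rpow (Real.exp_pos _).le hMlo hd.le
    have e2 : 16 * 800 * P ≤ Real.exp r := by
      rw [← Real.log_le_iff_le_exp (by positivity)]
      exact hrc.le
    have e3 : Real.exp (8 * r) ^ 2 = Real.exp (16 * r) := by
      rw [← Real.exp_nat_mul]
      congr 1
      push_cast
      ring
    have e4 : 16 * 800 * P * Real.exp (-(4 * r)) ≤ 1 := by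
      calc 16 * 800 * P * Real.exp (-(4 * r)) ≤ Real.exp r * Real.exp (-(4 * r)) :=
            mul_le_mul_of_nonneg_right e2 (Real.exp_pos _).le
        _ = Real.exp (r + -(4 * r)) := (Real.exp_add _ _).symm
        _ ≤ Real.exp 0 := Real.exp_le_exp.2 (by linarith)
        _ = 1 := Real.exp_zero
    calc (4 * Real.exp (8 * r)) ^ 2 * ((M : ℝ) ^ (-d) * P) = 16 * Real.exp (16 * r) * P * (M : ℝ) ^ (-d) := by
          rw [mul_pow, e3]
          ring
      _ ≤ 16 * Real.exp (16 * r) * P * Real.exp (-(20 * r)) := by gcongr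
      _ = 16 * P * (Real.exp (16 * r) * Real.exp (-(20 * r))) := by ring
      _ = 16 * P * Real.exp (-(4 * r)) := by
          rw [← Real.exp_add]
          congr 2
          ring
      _ ≤ 1 / 800 := by linarith

end Pool.Agent.Helper11.LV
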