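import Pool.Agent.Helper11.LV.One
import Pool.Agent.Helper82.LV.Dec
import Pool.Agent.Helper47.LV.A6
import Pool.Agent.Helper62.LV.PrimeSum
import Pool.Agent.Helper19.LV.C4
import Pool.Agent.Helper31.LV.D1
import Pool.Agent.Helper28.LV.D3F
import Pool.Agent.Helper11.LV.Par
import Pool.Agent.Helper11.LV.Big
import Pool.Agent.Helper11.LV.Ctb
import Pool.Agent.Helper95.TF.RecM
import Pool.Agent.Helper95.TF.RecL

/-!
# Project LV (MP_a499ba_nt): the four functionals at once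
-/

set_option autoImplicit false

namespace Pool.Agent.Helper11.LV

open Finset Filter Topology MeasureTheory Pool.Agent.QT Pool.Agent.Helper11.Q3 Pool.Agent.Helper11.DR Pool.Agent.Q3psi
open Pool.Agent.Helper38.LV (FM_lim FL_lim)
open Pool.Agent.Helper82.LV (mb_mu mb_la)
open Pool.Agent.Helper47.LV (FM_ge FL_ge FM_le_one FL_le_one)
open Pool.Agent.Helper62.LV (prime_sum_cos)
open Pool.Agent.Helper71.LV (gz_ge gz_le)
open Pool.Agent.Helper19.LV (series_end)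
open Pool.Agent.Helper31.LV (sub_card)
open Pool.Agent.Helper28.LV (sub_sq)

/-- the size of the Euler products off the real axis -/
noncomputable def Fs (d : ℝ) (y : ℕ) : ℝ := Real.exp ((y : ℝ) ^ (1 / 2 - 2 * d) - 4 * (1 + Real.log y))

/-- small at `d`, large at `d + iτ` -/
def Nice1 (d : ℝ) (y : ℕ) (L : ℝ) (a : ℕ → ℝ) : Prop :=
  ‖TT a L (d : ℂ)‖ ≤ 9 ∧ Fs d y / 4 - 3 ≤ ‖TT a L ((d : ℂ) + ((Real.pi / Real.log y : ℝ) : ℂ) * Complex.I)‖

def Nice (d : ℝ) (y : ℕ) (L : ℝ) (q : ℕ) : Prop := Nice1 d y L (ajq 0 q) ∧ Nice1 d y L (ljq 0 q)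

theorem ajq_c (q n : ℕ) : (ajq 0 q n : ℂ) = ((ArithmeticFunction.moebius n : ℤ) : ℂ) * ja q n := by
  unfold ajq ja
  simp [ps]

theorem ljq_c (q n : ℕ) : (ljq 0 q n : ℂ) = ((-1 : ℂ) ^ ArithmeticFunction.cardFactors n) * ja q n := by
  unfold ljq ja lam
  simp [ps]

theorem abs_ajq (q n : ℕ) : |ajq 0 q n| ≤ 1 := by
  have h1 : ‖(ajq 0 q n : ℂ)‖ ≤ 1 := by
    rw [ajq_c, norm_mul]
    refine mul_le_one₀ ?_ (norm_nonneg _) (ja_le q n)
    rw [Complex.norm_intCast]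
    exact_mod_cast ArithmeticFunction.abs_moebius_le_one
  rwa [Complex.norm_real, Real.norm_eq_abs] at h1

theorem abs_ljq (q n : ℕ) : |ljq 0 q n| ≤ 1 := by
  have h1 : ‖(ljq 0 q n : ℂ)‖ ≤ 1 := by
    rw [ljq_c, norm_mul]
    refine mul_le_one₀ ?_ (norm_nonneg _) (ja_le q n)
    simp
  rwa [Complex.norm_real, Real.norm_eq_abs] at h1

/-- the real part of the sum over the primes -/
theorem sum_re {Q y q : ℕ} {d : ℝ} (hq : q ∈ Sub Q y) :
    -(∑ p ∈ Pr y, (ja q p * (p : ℂ) ^ (-(1 / 2 + ((d : ℂ) + ((Real.pi / Real.log y : ℝ) : ℂ) * Complex.I)))).re) =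
      ∑ p ∈ Pr y, (p : ℝ) ^ (-(1 / 2 + d)) * (-Real.cos (Real.pi * Real.log p / Real.log y)) := by
  rw [← Finset.sum_neg_distrib]
  refine Finset.sum_congr rfl fun p hp => ?_
  have hpp := (mem_Pr.1 hp).1
  have h1 : ja q p = 1 := by
    unfold ja
    rw [(Finset.mem_filter.1 hq).2 p hp]
    simp
  have hp0 : (0 : ℝ) < p := by exact_mod_cast hpp.pos
  have hp0' : (p : ℂ) ≠ 0 := by exact_mod_cast hpp.ne_zero
  rw [h1, one_mul, Complex.cpow_def_of_ne_zero hp0']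
  have h2 : Complex.log (p : ℂ) * -(1 / 2 + ((d : ℂ) + ((Real.pi / Real.log y : ℝ) : ℂ) * Complex.I)) =
      ((Real.log p * (-(1 / 2 + d)) : ℝ) : ℂ) + ((-(Real.pi * Real.log p / Real.log y) : ℝ) : ℂ) * Complex.I := by
    rw [show ((p : ℂ)) = ((p : ℝ) : ℂ) by push_cast; rfl, ← Complex.ofReal_log hp0.le]
    push_cast
    ring
  rw [h2, Complex.exp_re]
  have h3 : (((Real.log p * (-(1 / 2 + d)) : ℝ) : ℂ) + ((-(Real.pi * Real.log p / Real.log y) : ℝ) : ℂ) * Complex.I).re =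
      Real.log p * (-(1 / 2 + d)) := by rw [Complex.add_re, Complex.ofReal_re, Complex.re_ofReal_mul, Complex.I_re, mul_zero, add_zero]
  have h4 : (((Real.log p * (-(1 / 2 + d)) : ℝ) : ℂ) + ((-(Real.pi * Real.log p / Real.log y) : ℝ) : ℂ) * Complex.I).im =
      -(Real.pi * Real.log p / Real.log y) := by rw [Complex.add_im, Complex.ofReal_im, Complex.im_ofReal_mul, Complex.I_im, mul_one, zero_add]
  rw [h3, h4, Real.cos_neg, Real.rpow_def_of_pos hp0]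
  ring

/-- from the decomposition to the sizes -/
theorem small_of {T g F R E : ℂ} (hR : ‖R‖ ≤ 1 / 2) (hE : ‖E‖ ≤ 1 / 2) (h : ‖T - g * F * (1 + R) - E‖ ≤ 2) (hg : ‖g‖ ≤ 4) (hF : ‖F‖ ≤ 1) :
    ‖T‖ ≤ 9 := by
  have h1 : ‖g * F * (1 + R)‖ ≤ 4 * 1 * (3 / 2) := by
    rw [norm_mul, norm_mul]
    have h2 : ‖1 + R‖ ≤ 3 / 2 := by
      refine (norm_add_le _ _).trans ?_
      rw [norm_one]
      linarith
    gcongr
  calc ‖T‖ = ‖(T - g * F * (1 + R) - E) + (g * F * (1 + R) + E)‖ := by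
        congr 1
        ring
    _ ≤ 2 + (4 * 1 * (3 / 2) + 1 / 2) := (norm_add_le _ _).trans (add_le_add h ((norm_add_le _ _).trans (add_le_add h1 hE)))
    _ ≤ 9 := by norm_num

theorem large_of {T g F R E : ℂ} {V : ℝ} (hR : ‖R‖ ≤ 1 / 2) (hE : ‖E‖ ≤ 1 / 2) (h : ‖T - g * F * (1 + R) - E‖ ≤ 2) (hg : 1 / 2 ≤ ‖g‖)
    (hV : 0 ≤ V) (hF : V ≤ ‖F‖) : V / 4 - 3 ≤ ‖T‖ := by
  have h2 : 1 / 2 ≤ ‖1 + R‖ := by
    have h3 := norm_sub_norm_le (1 : ℂ) (-R)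
    rw [norm_one, norm_neg, sub_neg_eq_add] at h3
    linarith
  have h1 : V / 4 ≤ ‖g * F * (1 + R)‖ := by
    rw [norm_mul, norm_mul]
    calc V / 4 = 1 / 2 * V * (1 / 2) := by ring
      _ ≤ ‖g‖ * ‖F‖ * ‖1 + R‖ := by gcongr
  have h4 : ‖g * F * (1 + R)‖ ≤ ‖T‖ + (2 + 1 / 2) := by
    calc ‖g * F * (1 + R)‖ = ‖T - ((T - g * F * (1 + R) - E) + E)‖ := by
          congr 1
          ring
      _ ≤ ‖T‖ + (2 + 1 / 2) := (norm_sub_le _ _).trans (add_le_add le_rfl ((norm_add_le _ _).trans (add_le_add h hE)))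
  linarith

open Classical in
/-- most `q` of the pattern family are nice -/
theorem nice_many {d : ℝ} (hd : 0 < d) (hd1 : d ≤ 1 / 8) : ∃ y1 Q1 : ℕ, ∀ Q y : ℕ, Q1 ≤ Q → y1 ≤ y → 30 * (y : ℝ) ≤ Real.log Q →
    ∃ L : ℝ, 0 ≤ L ∧ (Q : ℝ) / (16 * (2 ^ y * (y + 1))) ≤ (Sub Q y).card ∧
      (((Sub Q y).filter fun q => ¬ Nice d y L q).card : ℝ) ≤ (Sub Q y).card / 2 := by
  obtain ⟨L0, hL0⟩ := series_end
  obtain ⟨C, hC, hD⟩ := sub_sq
  obtain ⟨C', hC', hD1⟩ := sub_card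
  obtain ⟨yp, hpar⟩ := params hd hd1 L0
  obtain ⟨yc, hcos⟩ := prime_sum_cos hd hd1
  obtain ⟨Q1, hbig⟩ := big hC hC'
  obtain ⟨ye, hye⟩ := exists_nat_gt (Real.exp (8 * Real.pi))
  refine ⟨max (max yp yc) (max ye 64), Q1, fun Q y hQ hy hyQ => ?_⟩
  have hyp : yp ≤ y := ((le_max_left _ _).trans (le_max_left _ _)).trans hy
  have hyc : yc ≤ y := ((le_max_right _ _).trans (le_max_left _ _)).trans hy
  have hyee : ye ≤ y := ((le_max_left _ _).trans (le_max_right _ _)).trans hy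
  have hy64 : 64 ≤ y := ((le_max_right _ _).trans (le_max_right _ _)).trans hy
  have hy1 : 1 ≤ y := by omega
  obtain ⟨L, M, N, hL, hLL, hM, hMN, hNL, hNy, herr, hE1, hR1⟩ := hpar y hyp
  have hpi : (Pr y).card ≤ y := by
    calc (Pr y).card ≤ (Finset.Icc 1 y).card := Finset.card_le_card (Finset.filter_subset _ _)
      _ = y := by simp
  obtain ⟨hsize, hb⟩ := hbig Q y (Pr y).card hQ hy64 hpi hyQ (Sub Q y).card (OS Q).card (Pool.Agent.Helper11.Q3.j1d Q) (hD1 Q y hy1)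
  refine ⟨L, hL, hsize, ?_⟩
  set τ : ℝ := Real.pi / Real.log y with hτ
  have hlogy : 8 * Real.pi ≤ Real.log y := by
    have hy0 : (0 : ℝ) < y := by exact_mod_cast (by omega : 0 < y)
    rw [Real.le_log_iff_exp_le hy0]
    refine hye.le.trans ?_
    exact_mod_cast hyee
  have hpi0 := Real.pi_pos
  have hτ0 : 0 ≤ τ := by rw [hτ]; positivity
  have hτ8 : τ ≤ 1 / 8 := by
    rw [hτ, div_le_iff₀ (by linarith)]
    linarith
  set z1 : ℂ := (d : ℂ) with hz1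
  set z2 : ℂ := (d : ℂ) + ((τ : ℝ) : ℂ) * Complex.I with hz2
  have z1re : z1.re = d := by simp [hz1]
  have z2re : z2.re = d := by simp [hz2]
  have z1n : ‖z1‖ ≤ 1 / 4 := by
    rw [hz1, Complex.norm_real, Real.norm_of_nonneg hd.le]
    linarith
  have z2n : ‖z2‖ ≤ 1 / 4 := by
    rw [hz2]
    refine (norm_add_le _ _).trans ?_
    rw [norm_mul, Complex.norm_I, mul_one, Complex.norm_real, Complex.norm_real, Real.norm_of_nonneg hd.le, Real.norm_of_nonneg hτ0]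
    linarith
  have z1p : 0 < z1.re := by rw [z1re]; exact hd
  have z2p : 0 < z2.re := by rw [z2re]; exact hd
  have s1 : (1 / 2 + z1).re = 1 / 2 + d := by rw [Complex.add_re, z1re]; norm_num
  have s2 : (1 / 2 + z2).re = 1 / 2 + d := by rw [Complex.add_re, z2re]; norm_num
  have hmu0 : ∀ n : ℕ, ‖((ArithmeticFunction.moebius n : ℤ) : ℂ)‖ ≤ 1 := by
    intro n
    rw [Complex.norm_intCast]
    exact_mod_cast ArithmeticFunction.abs_moebius_le_one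
  have hla0 : ∀ n : ℕ, ‖((-1 : ℂ) ^ ArithmeticFunction.cardFactors n)‖ ≤ 1 := by
    intro n
    simp
  -- the four countings
  have c1 := one_fun hC hD hd hd1 z1re hL0 hy1 hL hLL hM hMN hNL hNy herr hE1 hR1 hb (a₀ := fun n => ((ArithmeticFunction.moebius n : ℤ) : ℂ))
    hmu0 (a := fun q => ajq 0 q) (fun q n => abs_ajq q n) (fun q n => ajq_c q n) (fun q => mb_mu (cmb_ja q)) (F := fun q => FM (ja q) (1 / 2 + z1) y)
    (gz_le z1p z1n) (fun q N hN => FM_lim (cmb_ja q) hd s1 y N hN)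
  have c2 := one_fun hC hD hd hd1 z2re hL0 hy1 hL hLL hM hMN hNL hNy herr hE1 hR1 hb (a₀ := fun n => ((ArithmeticFunction.moebius n : ℤ) : ℂ))
    hmu0 (a := fun q => ajq 0 q) (fun q n => abs_ajq q n) (fun q n => ajq_c q n) (fun q => mb_mu (cmb_ja q)) (F := fun q => FM (ja q) (1 / 2 + z2) y)
    (gz_le z2p z2n) (fun q N hN => FM_lim (cmb_ja q) hd s2 y N hN)
  have c3 := one_fun hC hD hd hd1 z1re hL0 hy1 hL hLL hM hMN hNL hNy herr hE1 hR1 hb (a₀ := fun n => ((-1 : ℂ) ^ ArithmeticFunction.cardFactors n))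
    hla0 (a := fun q => ljq 0 q) (fun q n => abs_ljq q n) (fun q n => ljq_c q n) (fun q => mb_la (cmb_ja q)) (F := fun q => FL (ja q) (1 / 2 + z1) y)
    (gz_le z1p z1n) (fun q N hN => FL_lim (cmb_ja q) hd s1 y N hN)
  have c4 := one_fun hC hD hd hd1 z2re hL0 hy1 hL hLL hM hMN hNL hNy herr hE1 hR1 hb (a₀ := fun n => ((-1 : ℂ) ^ ArithmeticFunction.cardFactors n))
    hla0 (a := fun q => ljq 0 q) (fun q n => abs_ljq q n) (fun q n => ljq_c q n) (fun q => mb_la (cmb_ja q)) (F := fun q => FL (ja q) (1 / 2 + z2) y)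
    (gz_le z2p z2n) (fun q N hN => FL_lim (cmb_ja q) hd s2 y N hN)
  have hFs : ∀ q ∈ Sub Q y, Fs d y ≤ Real.exp (-(∑ p ∈ Pr y, (ja q p * (p : ℂ) ^ (-(1 / 2 + z2))).re) - 4 * (1 + Real.log y)) := by
    intro q hq
    unfold Fs
    refine Real.exp_le_exp.2 (sub_le_sub_right ?_ _)
    have h1 := hcos y hyc
    have h2 := sum_re (d := d) hq
    rw [hz2, hτ]
    rw [h2]
    exact h1
  have hs1 : (1 / 2 + z1 : ℂ) = ((1 / 2 + d : ℝ) : ℂ) := by rw [hz1]; push_cast; ring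
  have hsub : ((Sub Q y).filter fun q => ¬ Nice d y L q) ⊆
      (((Sub Q y).filter fun q => ¬ ∃ R E : ℂ, ‖R‖ ≤ 1 / 2 ∧ ‖E‖ ≤ 1 / 2 ∧ ‖TT (ajq 0 q) L z1 - gz z1 * FM (ja q) (1 / 2 + z1) y * (1 + R) - E‖ ≤ 2) ∪
      ((Sub Q y).filter fun q => ¬ ∃ R E : ℂ, ‖R‖ ≤ 1 / 2 ∧ ‖E‖ ≤ 1 / 2 ∧ ‖TT (ajq 0 q) L z2 - gz z2 * FM (ja q) (1 / 2 + z2) y * (1 + R) - E‖ ≤ 2)) ∪
      (((Sub Q y).filter fun q => ¬ ∃ R E : ℂ, ‖R‖ ≤ 1 / 2 ∧ ‖E‖ ≤ 1 / 2 ∧ ‖TT (ljq 0 q) L z1 - gz z1 * FL (ja q) (1 / 2 + z1) y * (1 + R) - E‖ ≤ 2) ∪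
      ((Sub Q y).filter fun q => ¬ ∃ R E : ℂ, ‖R‖ ≤ 1 / 2 ∧ ‖E‖ ≤ 1 / 2 ∧ ‖TT (ljq 0 q) L z2 - gz z2 * FL (ja q) (1 / 2 + z2) y * (1 + R) - E‖ ≤ 2)) := by
    intro q hq
    obtain ⟨hq1, hq2⟩ := Finset.mem_filter.1 hq
    by_contra hcon
    simp only [Finset.mem_union, Finset.mem_filter, not_or, not_and, not_not] at hcon
    obtain ⟨⟨h1, h2⟩, h3, h4⟩ := hcon
    obtain ⟨R1, E1, a1, a2, a3⟩ := h1 hq1
    obtain ⟨R2, E2, b1, b2, b3⟩ := h2 hq1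
    obtain ⟨R3, E3, d1, d2, d3⟩ := h3 hq1
    obtain ⟨R4, E4, e1, e2, e3⟩ := h4 hq1
    have hp : ∀ p ∈ Pr y, ja q p = 1 := by
      intro p hp
      unfold ja
      rw [(Finset.mem_filter.1 hq1).2 p hp]
      simp
    have hFs0 : 0 ≤ Fs d y := (Real.exp_pos _).le
    apply hq2
    refine ⟨⟨small_of a1 a2 a3 (gz_le z1p z1n) ?_, large_of b1 b2 b3 (gz_ge z2p z2n) hFs0 ?_⟩,
      small_of d1 d2 d3 (gz_le z1p z1n) ?_, large_of e1 e2 e3 (gz_ge z2p z2n) hFs0 ?_⟩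
    · rw [hs1]
      exact FM_le_one hd hp
    · exact (hFs q hq1).trans (FM_ge (cmb_ja q) hd s2 hy1)
    · rw [hs1]
      exact FL_le_one hd hp
    · exact (hFs q hq1).trans (FL_ge (cmb_ja q) hd s2 hy1)
  have hcard := (Finset.card_le_card hsub).trans ((Finset.card_union_le _ _).trans (add_le_add (Finset.card_union_le _ _) (Finset.card_union_le _ _)))
  have hcard' := (Nat.cast_le (α := ℝ)).2 hcard
  push_cast at hcard'
  have hS0 : (0 : ℝ) ≤ (Sub Q y).card := Nat.cast_nonneg _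
  linarith

end Pool.Agent.Helper11.LV
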