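import Pool.Agent.Helper11.LV.Cnt
import Pool.Agent.Helper38.LV.A23
import Pool.Agent.Helper56.LV.Main
import Pool.Agent.Helper71.LV.C3
import Pool.Agent.Helper19.LV.C2

/-!
# Project LV (MP_a499ba_nt): one functional on the pattern family
-/

set_option autoImplicit false

namespace Pool.Agent.Helper11.LV

open Finset Filter Topology Pool.Agent.Helper11.Q3
open Pool.Agent.Helper38.LV (smooth_sum)
open Pool.Agent.Helper56.LV (main_dec)
open Pool.Agent.Helper71.LV (Hh_near Hh_le Hh_tail)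
open Pool.Agent.Helper19.LV (series)

theorem ja_one (q : ℕ) : ja q 1 = 1 := by
  unfold ja
  simp

theorem ja_mul (q m n : ℕ) : ja q (m * n) = ja q m * ja q n := by
  unfold ja
  push_cast
  rw [jacobiSym.mul_left]
  push_cast
  rfl

theorem ja_le (q n : ℕ) : ‖ja q n‖ ≤ 1 := by
  unfold ja
  rcases jacobiSym.trichotomy (n : ℤ) q with h | h | h <;> rw [h] <;> simp

theorem cmb_ja (q : ℕ) : CMB (ja q) := ⟨ja_one q, ja_mul q, ja_le q⟩

/-- the symbols of the smooth numbers are one -/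
theorem ja_smooth {Q y q : ℕ} (hq : q ∈ Sub Q y) : ∀ k : ℕ, 1 ≤ k → Smo y k → ja q k = 1 := by
  have hp : ∀ p ∈ Pr y, jacobiSym (p : ℤ) q = 1 := (Finset.mem_filter.1 hq).2
  intro k
  induction k using Nat.strong_induction_on with
  | _ k ih =>
    intro hk hs
    rcases Nat.lt_or_ge 1 k with h1 | h1
    · obtain ⟨m, hm⟩ := Nat.minFac_dvd k
      have hpr : (Nat.minFac k).Prime := Nat.minFac_prime (by omega)
      have hm0 : 1 ≤ m := by
        rcases Nat.eq_zero_or_pos m with h | h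
        · rw [h, mul_zero] at hm
          omega
        · exact h
      have hmk : m < k := by
        rw [hm]
        have := hpr.two_le
        nlinarith
      have e1 : ja q (Nat.minFac k) = 1 := by
        unfold ja
        rw [hp _ (mem_Pr.2 ⟨hpr, hs _ hpr (Nat.minFac_dvd k)⟩)]
        simp
      have e2 : ja q m = 1 := ih m hmk hm0 fun p hpp hd => hs p hpp (hd.trans ⟨Nat.minFac k, by rw [mul_comm]; exact hm⟩)
      rw [hm, ja_mul, e1, e2, one_mul]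
    · have : k = 1 := by omega
      rw [this, ja_one]

theorem rS_zero {y M : ℕ} (hM : 1 ≤ M) : rS y 0 M = insert 1 (rS y 1 M) := by
  ext m
  rw [Finset.mem_insert, mem_rS, mem_rS]
  constructor
  · rintro ⟨h1, h2, h3⟩
    rcases Nat.lt_or_ge 1 m with h | h
    · exact Or.inr ⟨h, h2, h3⟩
    · exact Or.inl (by omega)
  · rintro (h | ⟨h1, h2, h3⟩)
    · subst h
      exact ⟨by omega, hM, fun p hp hd => absurd (Nat.dvd_one.1 hd) hp.one_lt.ne'⟩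
    · exact ⟨by omega, h2, h3⟩

theorem one_notMem {y M : ℕ} : 1 ∉ rS y 1 M := by
  rw [mem_rS]
  rintro ⟨h, -, -⟩
  omega

theorem rough_ge {y m : ℕ} (h1 : 1 < m) (h : Rou y m) : y ≤ m := by
  have hpr : (Nat.minFac m).Prime := Nat.minFac_prime (by omega)
  have h2 := h _ hpr (Nat.minFac_dvd m)
  have h3 := Nat.minFac_le (by omega : 0 < m)
  omega

theorem norm_pw {s : ℂ} {n : ℕ} (hn : 1 ≤ n) : ‖(n : ℂ) ^ (-s)‖ = (n : ℝ) ^ (-s.re) := by
  rw [Complex.norm_natCast_cpow_of_pos (by omega), Complex.neg_re]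

open Classical in
theorem one_fun {C : ℝ} (hC : 0 < C) (hD : ∀ (Q y N : ℕ) (T : Finset ℕ) (c : ℕ → ℂ), (∀ m ∈ T, 1 ≤ m ∧ m ≤ N ∧ Rou y m) →
    ∑ q ∈ Sub Q y, ‖∑ m ∈ T, c m * ja q m‖ ^ 2 ≤
      (Sub Q y).card * ∑ m ∈ T, ∑ n ∈ T, (if IsSquare (m * n) then ‖c m‖ * ‖c n‖ else 0) +
      C * 32 ^ y * (N : ℝ) ^ 4 * Real.sqrt Q * (∑ m ∈ T, ‖c m‖) ^ 2)
    {d L0 L : ℝ} (hd : 0 < d) (hd1 : d ≤ 1 / 8) {z : ℂ} (hz : z.re = d)
    (hL0 : ∀ L : ℝ, L0 ≤ L → ∀ N : ℕ, Real.exp (2 * L) ≤ N →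
      Summable (fun n : ℕ => ((n + 1 : ℕ) : ℝ) ^ (-(1 / 2 : ℝ)) * Real.exp (-((L - Real.log (n + 1 : ℕ)) ^ 2 / 4))) ∧
      ∑' n : ℕ, ((n + N + 1 : ℕ) : ℝ) ^ (-(1 / 2 : ℝ)) * (4 * Real.exp (-((L - Real.log (n + N + 1 : ℕ)) ^ 2 / 4))) ≤ 1)
    {Q y M N : ℕ} (hy : 1 ≤ y) (hL : 0 ≤ L) (hLL : L0 ≤ L) (hM : 1 ≤ M) (hMN : 2 * M ≤ N) (hNL : Real.exp (2 * L) ≤ N)
    (hNy : (N : ℝ) ≤ Real.exp y)
    (herr : 2 * Real.sqrt M * 4 * Real.exp (8 * Real.sqrt y) * (((M : ℝ) / Real.exp L) ^ (d / 2) + (2 * (M : ℝ) / N) ^ d) ≤ 1)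
    (hE1 : (4 * Real.exp (8 * Real.sqrt y)) ^ 2 * ((M : ℝ) ^ (-d) * (1 + 1 / d) ^ 3) ≤ 1 / 800)
    (hR1 : (y : ℝ) ^ (-d) * (1 + 1 / d) ^ 3 ≤ 1 / 800)
    (hbig : ∀ (N : ℕ) (K : ℝ), (N : ℝ) ≤ Real.exp y → 0 ≤ K → K ≤ 4 * Real.exp (8 * Real.sqrt y) →
      C * 32 ^ y * (N : ℝ) ^ 4 * Real.sqrt Q * (K * (2 * Real.sqrt N)) ^ 2 ≤ (Sub Q y).card / 800)
    {a₀ : ℕ → ℂ} (ha₀ : ∀ n, ‖a₀ n‖ ≤ 1) {a : ℕ → ℕ → ℝ} (ha : ∀ q n, |a q n| ≤ 1) (haa : ∀ q n : ℕ, (a q n : ℂ) = a₀ n * ja q n)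
    (hMB : ∀ q, MB (fun n => a₀ n * ja q n)) {F : ℕ → ℂ} (hg : ‖gz z‖ ≤ 4)
    (hF : ∀ q N : ℕ, 1 ≤ N → ‖∑ k ∈ sS y N, (a₀ k * ja q k) * (k : ℂ) ^ (-(1 / 2 + z)) - F q‖ ≤ (N : ℝ) ^ (-d) * Real.exp (8 * Real.sqrt y)) :
    (((Sub Q y).filter fun q => ¬ ∃ R E : ℂ, ‖R‖ ≤ 1 / 2 ∧ ‖E‖ ≤ 1 / 2 ∧ ‖TT (a q) L z - gz z * F q * (1 + R) - E‖ ≤ 2).card : ℝ) ≤
      (Sub Q y).card / 50 := by
  set s : ℂ := 1 / 2 + z with hs
  have hsre : s.re = 1 / 2 + d := by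
    rw [hs, Complex.add_re, hz]
    norm_num
  set w : ℕ → ℂ := fun n => Hh z (L - Real.log n) with hw
  set B : ℝ := Real.exp (8 * Real.sqrt y) with hB
  have hB1 : 1 ≤ B := Real.one_le_exp (by positivity)
  have hz0 : 0 < z.re := by rw [hz]; exact hd
  have hz4 : z.re ≤ 1 / 4 := by rw [hz]; linarith
  set cR : ℕ → ℂ := fun m => a₀ m * (m : ℂ) ^ (-s) with hcR
  set cE : ℕ → ℂ := fun m => a₀ m * ((m : ℂ) ^ (-s) * ∑ k ∈ sS y (N / m), a₀ k * ((k : ℂ) ^ (-s) * w (k * m))) with hcE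
  set RZ : ℕ → ℂ := fun q => ∑ m ∈ rS y 1 M, cR m * ja q m with hRZ
  set EZ : ℕ → ℂ := fun q => ∑ m ∈ rS y M N, cE m * ja q m with hEZ
  -- the coefficients
  have hcR' : ∀ m ∈ rS y 1 M, ‖cR m‖ ≤ 1 * (m : ℝ) ^ (-(1 / 2 + d)) := by
    intro m hm
    have hm1 : 1 ≤ m := (mem_rS.1 hm).1.le
    rw [hcR]
    simp only
    rw [norm_mul, norm_pw hm1, hsre]
    exact mul_le_mul_of_nonneg_right (ha₀ m) (by positivity)
  have hcE' : ∀ m ∈ rS y M N, ‖cE m‖ ≤ (4 * B) * (m : ℝ) ^ (-(1 / 2 + d)) := by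
    intro m hm
    have hm1 : 1 ≤ m := by
      have := (mem_rS.1 hm).1
      omega
    have h1 : ‖∑ k ∈ sS y (N / m), a₀ k * ((k : ℂ) ^ (-s) * w (k * m))‖ ≤ 4 * B := by
      refine (norm_sum_le _ _).trans ?_
      calc ∑ k ∈ sS y (N / m), ‖a₀ k * ((k : ℂ) ^ (-s) * w (k * m))‖ ≤ ∑ k ∈ sS y (N / m), (k : ℝ) ^ (-(1 / 2 : ℝ)) * 4 := by
            refine Finset.sum_le_sum fun k hk => ?_
            have hk1 : 1 ≤ k := (mem_sS.1 hk).1
            have hk1' : (1 : ℝ) ≤ k := by exact_mod_cast hk1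
            rw [norm_mul, norm_mul, norm_pw hk1, hsre]
            calc ‖a₀ k‖ * ((k : ℝ) ^ (-(1 / 2 + d)) * ‖w (k * m)‖) ≤ 1 * ((k : ℝ) ^ (-(1 / 2 : ℝ)) * 4) := by
                  refine mul_le_mul (ha₀ k) (mul_le_mul ?_ (Hh_le hz0 hz4 _) (norm_nonneg _) (by positivity)) (by positivity) (by norm_num)
                  exact Real.rpow_le_rpow_of_exponent_le hk1' (by linarith)
              _ = _ := one_mul _
        _ = 4 * ∑ k ∈ sS y (N / m), (k : ℝ) ^ (-(1 / 2 : ℝ)) := by rw [← Finset.sum_mul, mul_comm]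
        _ ≤ 4 * B := mul_le_mul_of_nonneg_left (smooth_sum y _) (by norm_num)
    rw [hcE]
    simp only
    rw [norm_mul, norm_mul, norm_pw hm1, hsre]
    calc ‖a₀ m‖ * ((m : ℝ) ^ (-(1 / 2 + d)) * ‖∑ k ∈ sS y (N / m), a₀ k * ((k : ℂ) ^ (-s) * w (k * m))‖)
        ≤ 1 * ((m : ℝ) ^ (-(1 / 2 + d)) * (4 * B)) :=
          mul_le_mul (ha₀ m) (mul_le_mul_of_nonneg_left h1 (by positivity)) (by positivity) (by norm_num)
      _ = _ := by ring
  -- the second moments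
  have hMy : (M : ℝ) ≤ Real.exp y := by
    refine le_trans ?_ hNy
    exact_mod_cast (by omega : M ≤ N)
  have mR := moment hC hD hd (by linarith) zero_le_one (Q := Q) (y := y) (N := M) (A := y) (T := rS y 1 M) (c := cR) hy
    (fun m hm => by
      obtain ⟨h1, h2, h3⟩ := mem_rS.1 hm
      exact ⟨rough_ge h1 h3, h1.le, h2, h3⟩) hcR'
  have mE := moment hC hD hd (by linarith) (by positivity : (0 : ℝ) ≤ 4 * B) (Q := Q) (y := y) (N := N) (A := M) (T := rS y M N) (c := cE) hM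
    (fun m hm => by
      obtain ⟨h1, h2, h3⟩ := mem_rS.1 hm
      exact ⟨h1.le, by omega, h2, h3⟩) hcE'
  have bR := hbig M 1 hMy zero_le_one (by linarith)
  have bE := hbig N (4 * B) hNy (by positivity) le_rfl
  have hS0 : (0 : ℝ) ≤ (Sub Q y).card := Nat.cast_nonneg _
  have kR : ∑ q ∈ Sub Q y, ‖RZ q‖ ^ 2 ≤ (Sub Q y).card / 400 := by
    refine mR.trans ?_
    have h1 : ((Sub Q y).card : ℝ) * (1 ^ 2 * ((y : ℝ) ^ (-d) * (1 + 1 / d) ^ 3)) ≤ (Sub Q y).card * (1 / 800) := by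
      refine mul_le_mul_of_nonneg_left ?_ hS0
      rw [one_pow, one_mul]
      exact hR1
    linarith
  have kE : ∑ q ∈ Sub Q y, ‖EZ q‖ ^ 2 ≤ (Sub Q y).card / 400 := by
    refine mE.trans ?_
    have h1 := mul_le_mul_of_nonneg_left hE1 hS0
    linarith
  have cR1 := cheb (Sub Q y) RZ kR
  have cE1 := cheb (Sub Q y) EZ kE
  -- the decomposition
  have hmain : ∀ q ∈ Sub Q y, ‖TT (a q) L z - gz z * F q * (1 + RZ q) - EZ q‖ ≤ 2 := by
    intro q hq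
    have hjs := ja_smooth hq
    -- the end of the series
    obtain ⟨hsum, htail⟩ := hL0 L hLL N hNL
    have hser := series (ha q) hz0 hz4 L
    set h : ℕ → ℂ := fun n => (a q n : ℂ) * ((n : ℂ) ^ (-s) * w n) with hh'
    have hser' : HasSum (fun n : ℕ => h (n + 1)) (TT (a q) L z) := hser
    have hsplit := (hasSum_nat_add_iff' (f := fun n : ℕ => h (n + 1)) N).2 hser'
    have e1 : ∑ i ∈ range N, h (i + 1) = ∑ n ∈ Icc 1 N, h n := by
      rw [Finset.range_eq_Ico, Finset.sum_Ico_add' h 0 N 1]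
      rfl
    have hn : ∀ n : ℕ, ‖h (n + N + 1)‖ ≤ ((n + N + 1 : ℕ) : ℝ) ^ (-(1 / 2 : ℝ)) * (4 * Real.exp (-((L - Real.log (n + N + 1 : ℕ)) ^ 2 / 4))) := by
      intro n
      have hn1 : 1 ≤ n + N + 1 := by omega
      have hn1' : (1 : ℝ) ≤ ((n + N + 1 : ℕ) : ℝ) := by exact_mod_cast hn1
      have hlog : 2 * L ≤ Real.log ((n + N + 1 : ℕ) : ℝ) := by
        rw [Real.le_log_iff_exp_le (by linarith)]
        refine hNL.trans ?_
        exact_mod_cast (by omega : N ≤ n + N + 1)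
      have hxle : L - Real.log ((n + N + 1 : ℕ) : ℝ) ≤ 0 := by linarith
      have hab : ‖(a q (n + N + 1) : ℂ)‖ ≤ 1 := by
        rw [Complex.norm_real]
        exact ha q _
      rw [hh']
      simp only
      rw [norm_mul, norm_mul, norm_pw hn1, hsre]
      calc ‖(a q (n + N + 1) : ℂ)‖ * (((n + N + 1 : ℕ) : ℝ) ^ (-(1 / 2 + d)) * ‖w (n + N + 1)‖)
          ≤ 1 * (((n + N + 1 : ℕ) : ℝ) ^ (-(1 / 2 : ℝ)) * (4 * Real.exp (-((L - Real.log (n + N + 1 : ℕ)) ^ 2 / 4)))) := by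
            refine mul_le_mul hab (mul_le_mul ?_ (Hh_tail hz0 hz4 hxle) (norm_nonneg _) (by positivity)) (by positivity) (by norm_num)
            exact Real.rpow_le_rpow_of_exponent_le hn1' (by linarith)
        _ = _ := one_mul _
    have hsum2 : Summable (fun n : ℕ => ((n + N + 1 : ℕ) : ℝ) ^ (-(1 / 2 : ℝ)) * (4 * Real.exp (-((L - Real.log (n + N + 1 : ℕ)) ^ 2 / 4)))) := by
      have h1 := ((summable_nat_add_iff N).2 hsum).mul_left 4
      refine h1.congr fun n => ?_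
      ring
    have htl : ‖TT (a q) L z - ∑ n ∈ Icc 1 N, h n‖ ≤ 1 := by
      rw [e1] at hsplit
      rw [← hsplit.tsum_eq]
      have hsn : Summable fun n : ℕ => ‖h (n + N + 1)‖ := Summable.of_nonneg_of_le (fun _ => norm_nonneg _) hn hsum2
      exact (norm_tsum_le_tsum_norm hsn).trans ((hsn.tsum_le_tsum hn hsum2).trans htail)
    -- the partial sum
    have hdec := main_dec (hMB q) hd (by linarith) hsre (y := y) (F := F q) (B := B) (fun N => smooth_sum y N) (hF q) (w := w) (g := gz z)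
      (G := 4) (X := Real.exp L) hg (Real.one_le_exp hL) (fun n hn => Hh_near hz0 hz4 hd (by linarith) L n hn) hM hMN
    have e2 : ∑ n ∈ Icc 1 N, h n = ∑ n ∈ Icc 1 N, (a₀ n * ja q n) * ((n : ℂ) ^ (-s) * w n) := by
      refine Finset.sum_congr rfl fun n _ => ?_
      rw [hh']
      simp only
      rw [haa]
    have e3 : ∑ m ∈ rS y 0 M, (a₀ m * ja q m) * (m : ℂ) ^ (-s) = 1 + RZ q := by
      rw [rS_zero hM, Finset.sum_insert one_notMem]
      congr 1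
      · have h1 : a₀ 1 * ja q 1 = 1 := (hMB q).one
        rw [h1]
        simp
      · rw [hRZ]
        refine Finset.sum_congr rfl fun m _ => ?_
        rw [hcR]
        ring
    have e4 : ∑ m ∈ rS y M N, (a₀ m * ja q m) * ((m : ℂ) ^ (-s) * ∑ k ∈ sS y (N / m), (a₀ k * ja q k) * ((k : ℂ) ^ (-s) * w (k * m))) = EZ q := by
      rw [hEZ]
      refine Finset.sum_congr rfl fun m _ => ?_
      rw [hcE]
      simp only
      have e5 : ∑ k ∈ sS y (N / m), (a₀ k * ja q k) * ((k : ℂ) ^ (-s) * w (k * m)) = ∑ k ∈ sS y (N / m), a₀ k * ((k : ℂ) ^ (-s) * w (k * m)) := by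
        refine Finset.sum_congr rfl fun k hk => ?_
        rw [hjs k (mem_sS.1 hk).1 (mem_sS.1 hk).2.2, mul_one]
      rw [e5]
      ring
    have hdec2 : ‖∑ n ∈ Icc 1 N, h n - gz z * F q * (1 + RZ q) - EZ q‖ ≤ 1 := by
      rw [e2, ← e3, ← e4]
      exact hdec.trans herr
    calc ‖TT (a q) L z - gz z * F q * (1 + RZ q) - EZ q‖ =
          ‖(TT (a q) L z - ∑ n ∈ Icc 1 N, h n) + (∑ n ∈ Icc 1 N, h n - gz z * F q * (1 + RZ q) - EZ q)‖ := by
            congr 1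
            ring
      _ ≤ 1 + 1 := (norm_add_le _ _).trans (add_le_add htl hdec2)
      _ = 2 := by norm_num
  -- counting
  have hsub : ((Sub Q y).filter fun q => ¬ ∃ R E : ℂ, ‖R‖ ≤ 1 / 2 ∧ ‖E‖ ≤ 1 / 2 ∧ ‖TT (a q) L z - gz z * F q * (1 + R) - E‖ ≤ 2) ⊆
      ((Sub Q y).filter fun q => 1 / 2 < ‖RZ q‖) ∪ ((Sub Q y).filter fun q => 1 / 2 < ‖EZ q‖) := by
    intro q hq
    obtain ⟨hq1, hq2⟩ := Finset.mem_filter.1 hq
    rw [Finset.mem_union, Finset.mem_filter, Finset.mem_filter]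
    by_contra hcon
    push Not at hcon
    exact hq2 ⟨RZ q, EZ q, hcon.1 hq1, hcon.2 hq1, hmain q hq1⟩
  have hcard : ((((Sub Q y).filter fun q => ¬ ∃ R E : ℂ, ‖R‖ ≤ 1 / 2 ∧ ‖E‖ ≤ 1 / 2 ∧ ‖TT (a q) L z - gz z * F q * (1 + R) - E‖ ≤ 2).card : ℕ) : ℝ) ≤
      (((Sub Q y).filter fun q => 1 / 2 < ‖RZ q‖).card : ℝ) + (((Sub Q y).filter fun q => 1 / 2 < ‖EZ q‖).card : ℝ) := by
    have := (Finset.card_le_card hsub).trans (Finset.card_union_le _ _)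
    exact_mod_cast this
  linarith

end Pool.Agent.Helper11.LV
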