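import Pool.Agent.Helper11.LV.Defs
import Pool.Agent.Helper11.DR.EndPsi

/-!
# Project LV (MP_a499ba_nt): large values for the real characters. Definitions
-/

set_option autoImplicit false

namespace Pool.Agent.Helper11.LV

open Finset MeasureTheory Pool.Agent.QT Pool.Agent.Helper11.Q3

/-- `∫_{t > 0} e^(-t/2) gk 1 (v - t) dt` -/
noncomputable def hh (v : ℝ) : ℝ := ∫ t in Set.Ioi (0 : ℝ), Real.exp (-(t / 2)) * gk 1 (v - t)

/-- `∫_{v ≤ x} hh(v) e^(-zv) dv` -/
noncomputable def Hh (z : ℂ) (x : ℝ) : ℂ := ∫ v in Set.Iic x, (hh v : ℂ) * Complex.exp (-(z * v))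

/-- its limit -/
noncomputable def gz (z : ℂ) : ℂ := Complex.exp (z ^ 2 / 2) / (1 / 2 + z)

/-- the truncated Laplace transform of the Gaussian means -/
noncomputable def TT (a : ℕ → ℝ) (L : ℝ) (z : ℂ) : ℂ := ∫ u in Set.Iic L, (bb 1 (FF a) u : ℂ) * Complex.exp (-(z * u))

/-- the odd squarefree `q ≤ Q` with `(p/q) = 1` for all primes `p ≤ y` -/
def Sub (Q y : ℕ) : Finset ℕ := (OS Q).filter fun q => ∀ p ∈ Pr y, jacobiSym (p : ℤ) q = 1

/-- the character `(./q)` as a complex function -/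
noncomputable def ja (q n : ℕ) : ℂ := ((jacobiSym (n : ℤ) q : ℤ) : ℂ)

end Pool.Agent.Helper11.LV
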