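import Pool.Agent.Helper11.LV.Fin
import Pool.Agent.Helper96.DR.P3

/-!
# Project LV (MP_a499ba_nt): the distribution of the size, real characters
-/

set_option autoImplicit false

namespace Pool.Agent.Helper11.LV

open Finset Filter Topology MeasureTheory Pool.Agent.QT Pool.Agent.Helper11.Q3 Pool.Agent.Helper11.DR Pool.Agent.Q3psi

/-- the choice of `y` for the size `V` -/
theorem choiceV {ε : ℝ} (hε : 0 < ε) (hε1 : ε < 1 / 4) (y1 : ℕ) (q0 : ℕ) : ∃ (X0 : ℕ) (V0 : ℝ), 1 < V0 ∧ ∀ X : ℕ, X0 ≤ X → ∀ V : ℝ, V0 ≤ V →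
    V ≤ Real.exp (Real.log X ^ (1 / 2 - ε)) → ∃ y : ℕ, y1 ≤ y ∧ 30 * (y : ℝ) ≤ Real.log X ∧
    2 * (V + 2) / (ε / 40) + 28 < Fs (ε / 40) y / 4 ∧
    2 * (X : ℝ) * Real.exp (-(Real.log V ^ (2 + ε))) + q0 + 2 ≤ (X : ℝ) / (16 * (2 ^ y * (y + 1))) / 2 := by
  have hlog : Tendsto (fun X : ℕ => Real.log (X : ℝ)) atTop atTop := Real.tendsto_log_atTop.comp tendsto_natCast_atTop_atTop
  set a : ℝ := 2 + ε / 2 with ha
  have ha0 : 0 < a := by linarith
  set K : ℝ := Real.log (4 * (240 / ε + 28)) + 9 with hK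
  -- the conditions on `v = log V`
  have t1 : ∀ᶠ v : ℝ in atTop, max (y1 : ℝ) (Real.log 128) ≤ v ^ a := (tendsto_rpow_atTop ha0).eventually_ge_atTop _
  have t2 : ∀ᶠ v : ℝ in atTop, 5 ≤ v ^ (ε / 2) := (tendsto_rpow_atTop (by linarith : 0 < ε / 2)).eventually_ge_atTop _
  have t3 : ∀ᶠ v : ℝ in atTop, 3 ≤ v ^ (ε / 8) := (tendsto_rpow_atTop (by linarith : 0 < ε / 8)).eventually_ge_atTop _
  have t4 : ∀ᶠ v : ℝ in atTop, max (2 * K) 1 ≤ v := eventually_ge_atTop _
  have t5 : ∀ᶠ v : ℝ in atTop, Real.log v ≤ 1 / 24 * v := by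
    have h := Real.isLittleO_log_id_atTop.def (by norm_num : (0 : ℝ) < 1 / 24)
    filter_upwards [h, eventually_ge_atTop 1] with l h1 h2
    rw [Real.norm_of_nonneg (Real.log_nonneg h2), id, Real.norm_of_nonneg (by linarith)] at h1
    exact h1
  obtain ⟨v0, hv0⟩ := Filter.eventually_atTop.1 ((t1.and t2).and ((t3.and t4).and t5))
  -- the conditions on `ℓ = log X`
  have s1 : ∀ᶠ l : ℝ in atTop, 60 ≤ l ^ ε := (tendsto_rpow_atTop hε).eventually_ge_atTop _
  have s2 : ∀ᶠ l : ℝ in atTop, 1 ≤ l := eventually_ge_atTop _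
  have s3 : ∀ᶠ X : ℕ in atTop, 128 * ((q0 : ℝ) + 2) ≤ (X : ℝ) ^ (1 / 2 : ℝ) :=
    ((tendsto_rpow_atTop (by norm_num : (0 : ℝ) < 1 / 2)).comp tendsto_natCast_atTop_atTop).eventually_ge_atTop _
  obtain ⟨X0, h0⟩ := Filter.eventually_atTop.1 (((hlog.eventually s1).and (hlog.eventually s2)).and (s3.and (eventually_ge_atTop 1)))
  refine ⟨X0, Real.exp (max v0 1), ?_, fun X hX V hV hVX => ?_⟩
  · exact Real.one_lt_exp_iff.2 (lt_of_lt_of_le one_pos (le_max_right _ _))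
  have hVpos : 0 < V := lt_of_lt_of_le (Real.exp_pos _) hV
  set v : ℝ := Real.log V with hv
  have hVe : V = Real.exp v := (Real.exp_log hVpos).symm
  have hvv : max v0 1 ≤ v := by
    have h1 := Real.log_le_log (Real.exp_pos _) hV
    rwa [Real.log_exp] at h1
  have hvl : v ≤ Real.log X ^ (1 / 2 - ε) := by
    have h1 := Real.log_le_log hVpos hVX
    rwa [Real.log_exp] at h1
  obtain ⟨⟨u1, u2⟩, ⟨u3, u4⟩, u5⟩ := hv0 v ((le_max_left _ _).trans hvv)
  obtain ⟨⟨w1, w2⟩, w3, w4⟩ := h0 X hX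
  have hv1 : 1 ≤ v := (le_max_right _ _).trans u4
  have hv0' : 0 < v := by linarith
  have hvK : 2 * K ≤ v := (le_max_left _ _).trans u4
  set l : ℝ := Real.log X with hl
  have hl0 : 0 < l := by linarith
  have hX0 : (0 : ℝ) < X := by exact_mod_cast (by omega : 0 < X)
  have hXe : (X : ℝ) = Real.exp l := (Real.exp_log hX0).symm
  have hva1 : 1 ≤ v ^ a := Real.one_le_rpow hv1 ha0.le
  have hgl : l ^ (1 - ε) * l ^ ε = l := by
    rw [← Real.rpow_add hl0]
    simp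
  have hval : v ^ a ≤ l ^ (1 - ε) := by
    calc v ^ a ≤ (l ^ (1 / 2 - ε)) ^ a := Real.rpow_le_rpow hv0'.le hvl ha0.le
      _ = l ^ ((1 / 2 - ε) * a) := (Real.rpow_mul hl0.le _ _).symm
      _ ≤ l ^ (1 - ε) := by
          refine Real.rpow_le_rpow_of_exponent_le w2 ?_
          rw [ha]
          nlinarith [sq_nonneg ε]
  have hyceil : v ^ a ≤ (⌈v ^ a⌉₊ : ℝ) := Nat.le_ceil _
  have hyceil2 : (⌈v ^ a⌉₊ : ℝ) ≤ 2 * v ^ a := by
    have := (Nat.ceil_lt_add_one (by positivity : 0 ≤ v ^ a)).le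
    linarith
  refine ⟨⌈v ^ a⌉₊, ?_, ?_, ?_, ?_⟩
  · exact_mod_cast ((le_max_left _ _).trans u1).trans hyceil
  · calc 30 * ((⌈v ^ a⌉₊ : ℕ) : ℝ) ≤ 30 * (2 * v ^ a) := by gcongr
      _ ≤ 30 * (2 * l ^ (1 - ε)) := by gcongr
      _ = l ^ (1 - ε) * 60 := by ring
      _ ≤ l ^ (1 - ε) * l ^ ε := mul_le_mul_of_nonneg_left w1 (by positivity)
      _ = l := hgl
  · set y : ℕ := ⌈v ^ a⌉₊ with hy
    have hy0 : (0 : ℝ) < y := by linarith
    have e1 : v ^ (1 + ε / 8) ≤ (y : ℝ) ^ (1 / 2 - 2 * (ε / 40)) := by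
      calc v ^ (1 + ε / 8) ≤ v ^ (a * (1 / 2 - 2 * (ε / 40))) := by
            refine Real.rpow_le_rpow_of_exponent_le hv1 ?_
            rw [ha]
            nlinarith
        _ = (v ^ a) ^ (1 / 2 - 2 * (ε / 40)) := Real.rpow_mul hv0'.le _ _
        _ ≤ _ := Real.rpow_le_rpow (by positivity) hyceil (by linarith)
    have e2 : Real.log y ≤ 1 + 3 * Real.log v := by
      calc Real.log y ≤ Real.log (2 * v ^ a) := Real.log_le_log hy0 hyceil2
        _ = Real.log 2 + a * Real.log v := by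
            rw [Real.log_mul (by norm_num) (by positivity), Real.log_rpow hv0']
        _ ≤ 1 + 3 * Real.log v := by
            have h1 := Real.log_two_lt_d9
            have h2 := Real.log_nonneg hv1
            nlinarith
    have e3 : v ^ (1 + ε / 8) = v * v ^ (ε / 8) := by rw [Real.rpow_add hv0', Real.rpow_one]
    have e4 : 3 * v ≤ v ^ (1 + ε / 8) := by
      rw [e3]
      nlinarith
    have hexpA : 1 ≤ Real.exp v := Real.one_le_exp hv0'.le
    have e5 : 2 * (V + 2) / (ε / 40) + 28 ≤ (240 / ε + 28) * Real.exp v := by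
      rw [hVe]
      have h1 : 2 * (Real.exp v + 2) / (ε / 40) = 80 / ε * (Real.exp v + 2) := by
        field_simp
        ring
      rw [h1]
      have h2 : 80 / ε * (Real.exp v + 2) ≤ 80 / ε * (3 * Real.exp v) := mul_le_mul_of_nonneg_left (by linarith) (by positivity)
      have h3 : 80 / ε * (3 * Real.exp v) = 240 / ε * Real.exp v := by ring
      nlinarith
    have hc0 : 0 < 4 * (240 / ε + 28) := by positivity
    have e6 : 4 * (240 / ε + 28) * Real.exp v < Fs (ε / 40) y := by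
      unfold Fs
      calc 4 * (240 / ε + 28) * Real.exp v = Real.exp (Real.log (4 * (240 / ε + 28))) * Real.exp v := by rw [Real.exp_log hc0]
        _ = Real.exp (Real.log (4 * (240 / ε + 28)) + v) := (Real.exp_add _ _).symm
        _ < _ := by
            apply Real.exp_lt_exp.2
            have h1 : Real.log (4 * (240 / ε + 28)) = K - 9 := by rw [hK]; ring
            rw [h1]
            linarith
    linarith
  · set y : ℕ := ⌈v ^ a⌉₊ with hy
    have e1 : (2 : ℝ) ^ y * (y + 1) ≤ Real.exp (4 * v ^ a) := by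
      have h1 : (2 : ℝ) ^ y ≤ Real.exp y := by
        have h2 : (2 : ℝ) ≤ Real.exp 1 := by linarith [Real.add_one_le_exp (1 : ℝ)]
        calc (2 : ℝ) ^ y ≤ Real.exp 1 ^ y := pow_le_pow_left₀ (by norm_num) h2 y
          _ = Real.exp y := by rw [← Real.exp_nat_mul, mul_one]
      have h3 : (y : ℝ) + 1 ≤ Real.exp y := Real.add_one_le_exp _
      calc (2 : ℝ) ^ y * (y + 1) ≤ Real.exp y * Real.exp y := mul_le_mul h1 h3 (by positivity) (Real.exp_pos _).le
        _ = Real.exp (y + y) := (Real.exp_add _ _).symm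
        _ ≤ Real.exp (4 * v ^ a) := Real.exp_le_exp.2 (by linarith)
    -- both terms are small
    have e2 : 128 * (2 * (X : ℝ) * Real.exp (-(v ^ (2 + ε)))) ≤ 2 * (X : ℝ) * Real.exp (-(4 * v ^ a)) := by
      have h1 : Real.log 128 ≤ v ^ a := (le_max_right _ _).trans u1
      have h2 : v ^ (2 + ε) = v ^ a * v ^ (ε / 2) := by
        rw [← Real.rpow_add hv0']
        congr 1
        rw [ha]
        ring
      have h3 : Real.log 128 + -(v ^ (2 + ε)) ≤ -(4 * v ^ a) := by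
        rw [h2]
        nlinarith
      calc 128 * (2 * (X : ℝ) * Real.exp (-(v ^ (2 + ε)))) = 2 * (X : ℝ) * (Real.exp (Real.log 128) * Real.exp (-(v ^ (2 + ε)))) := by
            rw [Real.exp_log (by norm_num)]
            ring
        _ = 2 * (X : ℝ) * Real.exp (Real.log 128 + -(v ^ (2 + ε))) := by rw [← Real.exp_add]
        _ ≤ _ := mul_le_mul_of_nonneg_left (Real.exp_le_exp.2 h3) (by positivity)
    have e3 : 128 * ((q0 : ℝ) + 2) ≤ (X : ℝ) * Real.exp (-(4 * v ^ a)) := by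
      refine w3.trans ?_
      have h1 : 8 * l ^ (1 - ε) ≤ l := by
        calc 8 * l ^ (1 - ε) ≤ l ^ ε * l ^ (1 - ε) := mul_le_mul_of_nonneg_right (by linarith) (by positivity)
          _ = l := by rw [mul_comm]; exact hgl
      calc (X : ℝ) ^ (1 / 2 : ℝ) = Real.exp (l * (1 / 2)) := by rw [hXe, ← Real.exp_mul]
        _ ≤ Real.exp (l + -(4 * v ^ a)) := Real.exp_le_exp.2 (by linarith)
        _ = (X : ℝ) * Real.exp (-(4 * v ^ a)) := by rw [Real.exp_add, ← hXe]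
    have e4 : (X : ℝ) * Real.exp (-(4 * v ^ a)) / 32 ≤ (X : ℝ) / (16 * (2 ^ y * (y + 1))) / 2 := by
      rw [div_div, Real.exp_neg, div_le_div_iff₀ (by norm_num) (by positivity)]
      have h5 : (Real.exp (4 * v ^ a))⁻¹ * (2 ^ y * ((y : ℝ) + 1)) ≤ 1 := by
        rw [inv_mul_le_iff₀ (Real.exp_pos _), mul_one]
        exact e1
      calc (X : ℝ) * (Real.exp (4 * v ^ a))⁻¹ * (16 * (2 ^ y * ((y : ℝ) + 1)) * 2) = 32 * X * ((Real.exp (4 * v ^ a))⁻¹ * (2 ^ y * ((y : ℝ) + 1))) := by ring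
        _ ≤ 32 * X * 1 := mul_le_mul_of_nonneg_left h5 (by positivity)
        _ = X * 32 := by ring
    have e5 : (0 : ℝ) ≤ (X : ℝ) * Real.exp (-(4 * v ^ a)) := by positivity
    linarith

theorem osc_mono {N : ℕ} {χ : DirichletCharacter ℂ N} {C C' : ℝ} (hC : C' ≤ C) (h : Osc χ C) : Osc χ C' := by
  have hh : ∀ F : ℝ → ℝ, High F C → High F C' := fun F h x0 => by
    obtain ⟨x, hx, h1⟩ := h x0
    exact ⟨x, hx, lt_of_le_of_lt (mul_le_mul_of_nonneg_right hC (Real.sqrt_nonneg x)) h1⟩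
  have hl : ∀ F : ℝ → ℝ, Low F C → Low F C' := fun F h x0 => by
    obtain ⟨x, hx, h1⟩ := h x0
    exact ⟨x, hx, lt_of_lt_of_le h1 (neg_le_neg (mul_le_mul_of_nonneg_right hC (Real.sqrt_nonneg x)))⟩
  exact ⟨hh _ h.1, hh _ h.2.1, h.2.2.imp (fun h => ⟨hl _ h.1, hl _ h.2⟩) id⟩

theorem ncard_RC_le (X : ℕ) (hX : 1 ≤ X) : ((RC X).ncard : ℝ) ≤ 2 * X := by
  have h := card_RC X hX
  rw [Fin.sum_univ_four] at h
  have hle : ∀ Q : ℕ, (OS Q).card ≤ Q := fun Q => by
    calc (OS Q).card ≤ (Finset.Icc 1 Q).card := Finset.card_le_card (Finset.filter_subset _ _)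
      _ = Q := by simp
  have h0 := hle (X / cd 0)
  have h1 := hle (X / cd 1)
  have h2 := hle (X / cd 2)
  have h3 := hle (X / cd 3)
  have c0 : cd 0 = 1 := rfl
  have c1 : cd 1 = 4 := rfl
  have c2 : cd 2 = 8 := rfl
  have c3 : cd 3 = 8 := rfl
  rw [c0] at h0
  rw [c1] at h1
  rw [c2] at h2
  rw [c3] at h3
  rw [c0, c1, c2, c3] at h
  have : (RC X).ncard ≤ 2 * X := by omega
  exact_mod_cast this

open Classical in
/-- large values, uniformly in `V` -/
theorem manyV {ε : ℝ} (hε : 0 < ε) (hε1 : ε < 1 / 4) : ∃ (X0 : ℕ) (V0 : ℝ), 1 < V0 ∧ ∀ X : ℕ, X0 ≤ X → ∀ V : ℝ, V0 ≤ V →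
    V ≤ Real.exp (Real.log X ^ (1 / 2 - ε)) →
    Real.exp (-(Real.log V ^ (2 + ε))) * (RC X).ncard ≤ ({x ∈ RC X | Osc x.2 V}.ncard : ℝ) := by
  have hd : 0 < ε / 40 := by linarith
  have hd1 : ε / 40 ≤ 1 / 8 := by linarith
  obtain ⟨y1, Q1, hnice⟩ := nice_many hd hd1
  obtain ⟨q0, hosc⟩ := osc_of_nice hd hd1
  obtain ⟨X0, V0, hV0, hch⟩ := choiceV hε hε1 y1 q0
  refine ⟨max X0 (max Q1 1), V0, hV0, fun X hX V hVV hVX => ?_⟩
  have hX1 : 1 ≤ X := ((le_max_right _ _).trans (le_max_right _ _)).trans hX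
  obtain ⟨y, hy, hyX, hV, hcount⟩ := hch X ((le_max_left _ _).trans hX) V hVV hVX
  obtain ⟨L, hL, hsize, hbad⟩ := hnice X y (((le_max_left _ _).trans (le_max_right _ _)).trans hX) hy hyX
  have hc := count (fun N χ => Osc χ V) X
  rw [hc]
  have hcd : cd 0 = 1 := rfl
  have hsub : ((Sub X y).filter fun q => Nice (ε / 40) y L q) ⊆
      ((OS (X / cd 0)).filter fun q => 1 < cd 0 * q ∧ Osc (chi 0 q) V) ∪ Finset.range (q0 + 2) := by
    intro q hq
    obtain ⟨hq1, hq2⟩ := Finset.mem_filter.1 hq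
    rw [Finset.mem_union]
    by_cases hq0 : q < q0 + 2
    · exact Or.inr (Finset.mem_range.2 hq0)
    · left
      have hOS : q ∈ OS X := (Finset.mem_filter.1 hq1).1
      have hOS' := hOS
      unfold OS at hOS'
      rw [Finset.mem_filter, Finset.mem_Icc] at hOS'
      obtain ⟨⟨ha, hb⟩, hodd, hsf⟩ := hOS'
      rw [Finset.mem_filter]
      exact ⟨by rw [hcd, Nat.div_one]; exact hOS, by rw [hcd, one_mul]; omega,
        hosc q y L _ (by omega) hodd hsf (by omega) hL (by linarith) hq2 hV⟩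
  have hcard := (Finset.card_le_card hsub).trans (Finset.card_union_le _ _)
  rw [Finset.card_range] at hcard
  have hcard' := (Nat.cast_le (α := ℝ)).2 hcard
  push_cast at hcard'
  have hsplit : (((Sub X y).filter fun q => Nice (ε / 40) y L q).card : ℝ) + (((Sub X y).filter fun q => ¬ Nice (ε / 40) y L q).card : ℝ) = (Sub X y).card := by
    exact_mod_cast Finset.card_filter_add_card_filter_not (s := Sub X y) (fun q => Nice (ε / 40) y L q)
  have hsum : (((OS (X / cd 0)).filter fun q => 1 < cd 0 * q ∧ Osc (chi 0 q) V).card : ℝ) ≤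
      ((∑ j : Fin 4, ((OS (X / cd j)).filter fun q => 1 < cd j * q ∧ Osc (chi j q) V).card : ℕ) : ℝ) := by
    exact_mod_cast Finset.single_le_sum (f := fun j : Fin 4 => ((OS (X / cd j)).filter fun q => 1 < cd j * q ∧
      Osc (chi j q) V).card) (fun _ _ => Nat.zero_le _) (Finset.mem_univ (0 : Fin 4))
  have hR := ncard_RC_le X hX1
  have hR2 : Real.exp (-(Real.log V ^ (2 + ε))) * (RC X).ncard ≤ 2 * (X : ℝ) * Real.exp (-(Real.log V ^ (2 + ε))) := by
    have := mul_le_mul_of_nonneg_left hR (Real.exp_pos (-(Real.log V ^ (2 + ε)))).le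
    linarith
  push_cast at hcard' hsum ⊢
  linarith

/-- `log log X → ∞` -/
theorem tendsto_ll : Tendsto (fun X : ℕ => Real.log (Real.log (X : ℝ))) atTop atTop :=
  (Real.tendsto_log_atTop.comp Real.tendsto_log_atTop).comp tendsto_natCast_atTop_atTop

open Classical in
/-- the typical size, with one bound for all conductors up to `X` -/
theorem typical {ε : ℝ} (hε : 0 < ε) (hε1 : ε < 1 / 4) : ∃ X0 : ℕ, ∀ X : ℕ, X0 ≤ X → ∀ V : ℝ, V ≤ Real.log (Real.log X) ^ (1 / 4 - ε / 2) →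
    (1 - ε) * (RC X).ncard ≤ ({x ∈ RC X | Osc x.2 V}.ncard : ℝ) := by
  have hden := density_all Pool.Agent.Helper96.DR.core_M Pool.Agent.Helper96.DR.core_L (δ := ε / 4) (by linarith) (by linarith)
  have h1 := hden.eventually (lt_mem_nhds (by linarith : 1 - ε / 2 < (1 : ℝ)))
  have h2 : ∀ᶠ X : ℕ in atTop, 2 ≤ Real.log (Real.log (X : ℝ)) := tendsto_ll.eventually_ge_atTop 2
  have h5 : ∀ᶠ X : ℕ in atTop, 2 ≤ Real.log (X : ℝ) := (Real.tendsto_log_atTop.comp tendsto_natCast_atTop_atTop).eventually_ge_atTop 2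
  have h3 : ∀ᶠ X : ℕ in atTop, 2 ^ (1 / 4 - ε / 4) ≤ Real.log (Real.log (X : ℝ)) ^ (ε / 4) :=
    ((tendsto_rpow_atTop (by linarith : 0 < ε / 4)).comp tendsto_ll).eventually_ge_atTop _
  have h4 : ∀ᶠ X : ℕ in atTop, 64 / ε + 16 ≤ Real.sqrt (X : ℝ) := (Real.tendsto_sqrt_atTop.comp tendsto_natCast_atTop_atTop).eventually_ge_atTop _
  obtain ⟨X0, h0⟩ := Filter.eventually_atTop.1 ((h1.and h2).and ((h3.and h4).and ((eventually_ge_atTop 16).and h5)))
  refine ⟨X0, fun X hX V hV => ?_⟩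
  obtain ⟨⟨u1, u2⟩, ⟨u3, u4⟩, u5, u6⟩ := h0 X hX
  set Λ : ℝ := Real.log (Real.log X) with hΛ
  have hX16 : (16 : ℝ) ≤ X := by exact_mod_cast u5
  have hXpos : (0 : ℝ) < X := by linarith
  have hss : Real.sqrt X * Real.sqrt X = X := Real.mul_self_sqrt hXpos.le
  have hs4 : 4 ≤ Real.sqrt X := by
    apply Real.le_sqrt_of_sq_le
    linarith
  have hfin := RC_finite X
  -- the number of all characters
  have hbig : (X : ℝ) / 16 ≤ (RC X).ncard := by
    have e1 := card_RC X (by omega)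
    rw [Fin.sum_univ_four] at e1
    have e2 : (X : ℝ) / 8 ≤ (OS X).card := Pool.Agent.Helper11.Q3.j1d X
    have e3 : OS (X / cd 0) = OS X := by simp [cd]
    rw [e3] at e1
    have e4 : ((OS X).card : ℝ) ≤ (RC X).ncard + 1 := by exact_mod_cast (by omega : (OS X).card ≤ (RC X).ncard + 1)
    linarith
  have hpos : (0 : ℝ) < (RC X).ncard := by linarith
  -- the small conductors
  set Y : ℕ := ⌊Real.sqrt X⌋₊ with hY
  have hY1 : 1 ≤ Y := Nat.le_floor (by push_cast; linarith)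
  have hYle : (Y : ℝ) ≤ Real.sqrt X := Nat.floor_le (Real.sqrt_nonneg _)
  have hsmall : ((RC Y).ncard : ℝ) ≤ ε / 2 * (RC X).ncard := by
    calc ((RC Y).ncard : ℝ) ≤ 2 * Y := ncard_RC_le Y hY1
      _ ≤ 2 * Real.sqrt X := by linarith
      _ ≤ ε / 2 * ((X : ℝ) / 16) := by
          have e1 : 64 / ε ≤ Real.sqrt X := by linarith
          rw [div_le_iff₀ hε] at e1
          nlinarith
      _ ≤ ε / 2 * (RC X).ncard := mul_le_mul_of_nonneg_left hbig (by linarith)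
  -- the others
  have hsub : {x ∈ RC X | Osc x.2 (thr (ε / 4) x.1)} ⊆ {x ∈ RC X | Osc x.2 V} ∪ RC Y := by
    rintro x ⟨hx1, hx2⟩
    by_cases hxY : x.1 ≤ Y
    · right
      exact ⟨hx1.1, hxY, hx1.2.2⟩
    · left
      refine ⟨hx1, osc_mono ?_ hx2⟩
      push Not at hxY
      refine hV.trans ?_
      have e1 : Real.sqrt X ≤ x.1 := by
        have e2 := Nat.lt_floor_add_one (Real.sqrt X)
        have e3 : ((Y : ℕ) : ℝ) + 1 ≤ x.1 := by exact_mod_cast hxY
        linarith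
      have hΛ0 : 0 < Λ := by linarith
      -- `log log x ≥ Λ / 2`
      have e2 : Real.log X / 2 ≤ Real.log x.1 := by
        rw [← Real.log_sqrt hXpos.le]
        exact Real.log_le_log (by linarith) e1
      have e3 : Λ / 2 ≤ Real.log (Real.log x.1) := by
        have e4 : Real.log (Real.log X / 2) ≤ Real.log (Real.log x.1) := Real.log_le_log (by linarith) e2
        rw [Real.log_div (by linarith) (by norm_num)] at e4
        have e5 := Real.log_two_lt_d9
        linarith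
      unfold thr
      calc Λ ^ (1 / 4 - ε / 2) = Λ ^ (1 / 4 - ε / 4) / Λ ^ (ε / 4) := by
            rw [← Real.rpow_sub hΛ0]
            congr 1
            ring
        _ ≤ Λ ^ (1 / 4 - ε / 4) / 2 ^ (1 / 4 - ε / 4) := div_le_div_of_nonneg_left (by positivity) (by positivity) u3
        _ = (Λ / 2) ^ (1 / 4 - ε / 4) := (Real.div_rpow hΛ0.le (by norm_num) _).symm
        _ ≤ _ := Real.rpow_le_rpow (by linarith) e3 (by linarith)
  have hc1 := Set.ncard_le_ncard hsub ((hfin.subset fun x hx => hx.1).union (RC_finite Y))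
  have hc2 := Set.ncard_union_le {x ∈ RC X | Osc x.2 V} (RC Y)
  have hc3 : ({x ∈ RC X | Osc x.2 (thr (ε / 4) x.1)}.ncard : ℝ) ≤ ({x ∈ RC X | Osc x.2 V}.ncard : ℝ) + ((RC Y).ncard : ℝ) := by
    exact_mod_cast hc1.trans hc2
  rw [lt_div_iff₀ hpos] at u1
  linarith

open Classical in
/-- **The distribution of the size.** -/
theorem size {ε : ℝ} (hε : 0 < ε) (hε1 : ε < 1 / 4) : ∃ X0 : ℕ, ∀ X : ℕ, X0 ≤ X → ∀ V : ℝ, 0 < V → V ≤ Real.exp (Real.log X ^ (1 / 2 - ε)) →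
    (1 - ε) * Real.exp (-(max 0 (Real.log (V / Real.log (Real.log X) ^ (1 / 4 - ε))) ^ (2 + ε))) * (RC X).ncard ≤
      ({x ∈ RC X | Osc x.2 V}.ncard : ℝ) := by
  obtain ⟨X1, h1⟩ := typical hε hε1
  obtain ⟨X2, V0, hV0, h2⟩ := manyV (ε := ε / 2) (by linarith) (by linarith)
  have t1 : ∀ᶠ X : ℕ in atTop, 1 ≤ Real.log (Real.log (X : ℝ)) := tendsto_ll.eventually_ge_atTop 1
  have t2 : ∀ᶠ X : ℕ in atTop, V0 ≤ Real.log (Real.log (X : ℝ)) ^ (1 / 4 - ε / 2) :=
    ((tendsto_rpow_atTop (by linarith : 0 < 1 / 4 - ε / 2)).comp tendsto_ll).eventually_ge_atTop _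
  have t3 : ∀ᶠ X : ℕ in atTop, (2 * ε) ^ (-(2 + ε)) ≤ (Real.log (Real.log (Real.log (X : ℝ)) ^ (1 / 4 - ε / 2))) ^ (ε / 2) :=
    ((tendsto_rpow_atTop (by linarith : 0 < ε / 2)).comp (Real.tendsto_log_atTop.comp
      ((tendsto_rpow_atTop (by linarith : 0 < 1 / 4 - ε / 2)).comp tendsto_ll))).eventually_ge_atTop _
  have t4 : ∀ᶠ X : ℕ in atTop, 1 ≤ Real.log (X : ℝ) := (Real.tendsto_log_atTop.comp tendsto_natCast_atTop_atTop).eventually_ge_atTop 1
  obtain ⟨X3, h3⟩ := Filter.eventually_atTop.1 ((t1.and t2).and (t3.and t4))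
  refine ⟨max X1 (max X2 X3), fun X hX V hV hVX => ?_⟩
  have hX1 : X1 ≤ X := (le_max_left _ _).trans hX
  have hX2 : X2 ≤ X := ((le_max_left _ _).trans (le_max_right _ _)).trans hX
  have hX3 : X3 ≤ X := ((le_max_right _ _).trans (le_max_right _ _)).trans hX
  obtain ⟨⟨u1, u2⟩, u3, u4⟩ := h3 X hX3
  set Λ : ℝ := Real.log (Real.log X) with hΛ
  have hΛ0 : 0 < Λ := by linarith
  have hR0 : (0 : ℝ) ≤ (RC X).ncard := Nat.cast_nonneg _
  set W : ℝ := max 0 (Real.log (V / Λ ^ (1 / 4 - ε))) with hW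
  have hW0 : 0 ≤ W := le_max_left _ _
  rcases le_or_gt V (Λ ^ (1 / 4 - ε / 2)) with hc | hc
  · refine le_trans ?_ (h1 X hX1 V hc)
    have e1 : Real.exp (-(W ^ (2 + ε))) ≤ 1 := Real.exp_le_one_iff.2 (neg_nonpos.2 (by positivity))
    have e2 : (1 - ε) * Real.exp (-(W ^ (2 + ε))) ≤ (1 - ε) * 1 := mul_le_mul_of_nonneg_left e1 (by linarith)
    rw [mul_one] at e2
    exact mul_le_mul_of_nonneg_right e2 hR0
  · have hVV : V0 ≤ V := u2.trans hc.le
    have hV1 : 1 < V := lt_of_lt_of_le hV0 hVV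
    set v : ℝ := Real.log V with hv
    have hv0 : 0 < v := Real.log_pos hV1
    -- `v ≥ log Λ ^ (1/4 - ε/2)`
    have e1 : (1 / 4 - ε / 2) * Real.log Λ ≤ v := by
      rw [← Real.log_rpow hΛ0]
      exact Real.log_le_log (by positivity) hc.le
    have e2 : 2 * ε * v ≤ W := by
      refine le_trans ?_ (le_max_right _ _)
      rw [Real.log_div (by linarith) (by positivity), Real.log_rpow hΛ0]
      have e3 : (1 / 4 - ε) * Real.log Λ ≤ (1 - 2 * ε) * v := by
        have e4 : (1 / 4 - ε) ≤ (1 - 2 * ε) * (1 / 4 - ε / 2) := by nlinarith [sq_nonneg ε]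
        have e5 : 0 ≤ Real.log Λ := Real.log_nonneg u1
        calc (1 / 4 - ε) * Real.log Λ ≤ (1 - 2 * ε) * (1 / 4 - ε / 2) * Real.log Λ := mul_le_mul_of_nonneg_right e4 e5
          _ = (1 - 2 * ε) * ((1 / 4 - ε / 2) * Real.log Λ) := by ring
          _ ≤ (1 - 2 * ε) * v := mul_le_mul_of_nonneg_left e1 (by linarith)
      linarith
    have e3 : v ^ (2 + ε / 2) ≤ W ^ (2 + ε) := by
      have e4 : (2 * ε * v) ^ (2 + ε) ≤ W ^ (2 + ε) := Real.rpow_le_rpow (by positivity) e2 (by linarith)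
      refine le_trans ?_ e4
      have e5 : (2 * ε) ^ (-(2 + ε)) ≤ v ^ (ε / 2) := by
        refine u3.trans (Real.rpow_le_rpow ?_ ?_ (by linarith))
        · rw [Real.log_rpow hΛ0]
          exact mul_nonneg (by linarith) (Real.log_nonneg u1)
        · exact Real.log_le_log (by positivity) hc.le
      rw [Real.mul_rpow (by positivity) hv0.le]
      have e6 : v ^ (2 + ε) = v ^ (2 + ε / 2) * v ^ (ε / 2) := by
        rw [← Real.rpow_add hv0]
        congr 1
        ring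
      rw [e6]
      have e7 : 1 ≤ (2 * ε) ^ (2 + ε) * v ^ (ε / 2) := by
        rw [Real.rpow_neg (by positivity), inv_le_iff_one_le_mul₀ (by positivity)] at e5
        linarith
      calc v ^ (2 + ε / 2) = v ^ (2 + ε / 2) * 1 := (mul_one _).symm
        _ ≤ v ^ (2 + ε / 2) * ((2 * ε) ^ (2 + ε) * v ^ (ε / 2)) := mul_le_mul_of_nonneg_left e7 (by positivity)
        _ = _ := by ring
    have e4 : V ≤ Real.exp (Real.log X ^ (1 / 2 - ε / 2)) :=
      hVX.trans (Real.exp_le_exp.2 (Real.rpow_le_rpow_of_exponent_le u4 (by linarith)))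
    refine le_trans ?_ (h2 X hX2 V hVV e4)
    refine mul_le_mul_of_nonneg_right ?_ hR0
    calc (1 - ε) * Real.exp (-(W ^ (2 + ε))) ≤ 1 * Real.exp (-(W ^ (2 + ε))) := mul_le_mul_of_nonneg_right (by linarith) (Real.exp_pos _).le
      _ = Real.exp (-(W ^ (2 + ε))) := one_mul _
      _ ≤ _ := Real.exp_le_exp.2 (neg_le_neg e3)

end Pool.Agent.Helper11.LV
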